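import Pool.Agent.H81.JM.Arr
import Pool.Agent.H99.R2.Mk4

/-!
# The gradients of two hyperleaves

The leaves of two labels over the calm coordinates have the slopes `ρ` (of `v`) and `p + n ρ`
(of `N`), where `(p, n)` is the gradient of the hyperleaf `N = G(z, v)`. `sig_max`: if the slopes
are bounded and the slopes of `v` are different, the gradients are bounded by the difference of the
gradients. `sig_pair`: so the difference of two large gradients is large, in the form in which it is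
used in a cell (`lin`). `sig_dt`: if three gradients are near to each other, the determinant `dt` is
small.
-/

set_option autoImplicit false

namespace Pool.SPN

open Finset Real
open Pool.JMN (shf tdg)
open Pool.R2M (dt)

/-- **The gradients are bounded by their difference.** -/
theorem sig_max {k h : ℕ} {u g : ℝ} {ρa ρb pa pb : Fin k → ℝ} {na nb : ℝ} (j : Fin k)
    (hu : 0 ≤ u) (hρa : ∀ b, |ρa b| ≤ 2 ^ h) (hρb : ∀ b, |ρb b| ≤ 2 ^ h)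
    (hsep : 1 / 2 ^ h ≤ |ρa j - ρb j|) (ha : ∀ b, |pa b + na * ρa b| ≤ 2 ^ h * u)
    (hb : ∀ b, |pb b + nb * ρb b| ≤ 2 ^ h * u) (gp : ∀ b, |pa b - pb b| ≤ g)
    (gn : |na - nb| ≤ g) :
    (|na| ≤ 2 ^ (3 * h + 2) * (u + g) ∧ |nb| ≤ 2 ^ (3 * h + 2) * (u + g)) ∧
      ∀ b, |pa b| ≤ 2 ^ (3 * h + 2) * (u + g) ∧ |pb b| ≤ 2 ^ (3 * h + 2) * (u + g) := by
  have hg : 0 ≤ g := (abs_nonneg _).trans gn
  have hP : (1 : ℝ) ≤ 2 ^ h := one_le_pow₀ (by norm_num)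
  have hP0 : (0 : ℝ) < 2 ^ h := by linarith
  have e3 : (2 : ℝ) ^ (3 * h + 2) = 4 * (2 ^ h * 2 ^ h * 2 ^ h) := by
    rw [pow_add, pow_mul']
    ring
  have hug : 0 ≤ u + g := by linarith
  have hPP : (1 : ℝ) ≤ 2 ^ h * 2 ^ h := one_le_mul_of_one_le_of_one_le hP hP
  -- one side
  have key : ∀ {ρ1 ρ2 p1 p2 : Fin k → ℝ} {n1 n2 : ℝ}, (∀ b, |ρ1 b| ≤ 2 ^ h) →
      (∀ b, |ρ2 b| ≤ 2 ^ h) → 1 / 2 ^ h ≤ |ρ1 j - ρ2 j| → (∀ b, |p1 b + n1 * ρ1 b| ≤ 2 ^ h * u) →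
      (∀ b, |p2 b + n2 * ρ2 b| ≤ 2 ^ h * u) → (∀ b, |p1 b - p2 b| ≤ g) → |n1 - n2| ≤ g →
      |n1| ≤ 2 ^ (3 * h + 2) * (u + g) ∧ ∀ b, |p1 b| ≤ 2 ^ (3 * h + 2) * (u + g) := by
    intro ρ1 ρ2 p1 p2 n1 n2 h1 h2 h3 h4 h5 h6 h7
    have e1 : n1 * (ρ1 j - ρ2 j) = (p1 j + n1 * ρ1 j) - (p2 j + n2 * ρ2 j) - (p1 j - p2 j) -
      (n1 - n2) * ρ2 j := by ring
    have e2 : |n1 * (ρ1 j - ρ2 j)| ≤ 2 ^ h * u + 2 ^ h * u + g + g * 2 ^ h := by
      rw [e1]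
      refine (abs_sub _ _).trans (add_le_add ((abs_sub _ _).trans (add_le_add
        ((abs_sub _ _).trans (add_le_add (h4 j) (h5 j))) (h6 j))) ?_)
      rw [abs_mul]
      exact mul_le_mul h7 (h2 j) (abs_nonneg _) hg
    rw [abs_mul] at e2
    have e4 : |n1| * (1 / 2 ^ h) ≤ |n1| * |ρ1 j - ρ2 j| :=
      mul_le_mul_of_nonneg_left h3 (abs_nonneg _)
    have e5 : |n1| ≤ 2 ^ h * (2 ^ h * u + 2 ^ h * u + g + g * 2 ^ h) := by
      have e6 := mul_le_mul_of_nonneg_left (e4.trans e2) hP0.le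
      have e7 : (2 : ℝ) ^ h * (|n1| * (1 / 2 ^ h)) = |n1| := by field_simp
      rw [e7] at e6
      exact e6
    have e8 : |n1| ≤ 2 * (2 ^ h * 2 ^ h) * (u + g) := by
      have r1 : g ≤ 2 ^ h * g := by nlinarith
      have r2 : (2 : ℝ) ^ h * (2 ^ h * u + 2 ^ h * u + g + g * 2 ^ h) ≤
          2 ^ h * (2 ^ h * u + 2 ^ h * u + 2 ^ h * g + g * 2 ^ h) :=
        mul_le_mul_of_nonneg_left (by linarith) hP0.le
      refine (e5.trans r2).trans (le_of_eq ?_)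
      ring
    have e9 : 0 ≤ (2 : ℝ) ^ h * 2 ^ h * (u + g) := by positivity
    have e10 : (2 : ℝ) ^ h * 2 ^ h * (u + g) ≤ 2 ^ h * 2 ^ h * 2 ^ h * (u + g) := by
      have : (2 : ℝ) ^ h * 2 ^ h * 1 ≤ 2 ^ h * 2 ^ h * 2 ^ h :=
        mul_le_mul_of_nonneg_left hP (by positivity)
      exact mul_le_mul_of_nonneg_right (by linarith) hug
    refine ⟨?_, fun b => ?_⟩
    · rw [e3]
      nlinarith
    · have f1 : p1 b = (p1 b + n1 * ρ1 b) - n1 * ρ1 b := by ring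
      rw [f1, e3]
      refine (abs_sub _ _).trans ?_
      rw [abs_mul]
      have f2 := h4 b
      have f3 : |n1| * |ρ1 b| ≤ 2 * (2 ^ h * 2 ^ h) * (u + g) * 2 ^ h :=
        mul_le_mul e8 (h1 b) (abs_nonneg _) (by positivity)
      have f4 : (2 : ℝ) ^ h * u ≤ 2 * (2 ^ h * 2 ^ h * 2 ^ h) * (u + g) := by
        have r1 : (2 : ℝ) ^ h * 1 ≤ 2 ^ h * (2 ^ h * 2 ^ h) :=
          mul_le_mul_of_nonneg_left hPP hP0.le
        have r2 : (2 : ℝ) ^ h * u ≤ 2 ^ h * (2 ^ h * 2 ^ h) * u :=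
          mul_le_mul_of_nonneg_right (by linarith) hu
        have r3 : (2 : ℝ) ^ h * (2 ^ h * 2 ^ h) * u ≤ 2 ^ h * (2 ^ h * 2 ^ h) * (u + g) :=
          mul_le_mul_of_nonneg_left (by linarith) (by positivity)
        have r4 : 0 ≤ (2 : ℝ) ^ h * (2 ^ h * 2 ^ h) * (u + g) := by positivity
        nlinarith
      nlinarith
  have k1 := key hρa hρb hsep ha hb gp gn
  have k2 := key hρb hρa (by rw [abs_sub_comm]; exact hsep) hb ha
    (fun b => by rw [abs_sub_comm]; exact gp b) (by rw [abs_sub_comm]; exact gn)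
  exact ⟨⟨k1.1, k2.1⟩, fun b => ⟨k1.2 b, k2.2 b⟩⟩

/-- **Three gradients near to each other: the determinant is small.** -/
theorem sig_dt {h : ℕ} {δ u : ℝ} (hu : 0 < u) {s : Fin 3 → Fin 2 → Fin 2 → ℝ}
    {p : Fin 3 → Fin 2 → ℝ} {n : Fin 3 → ℝ} (hs : ∀ i b j, |s i b j| ≤ 2 ^ h)
    (hr : ∀ i b, |u * s i b 1 - (p i b + n i * s i b 0)| ≤ δ * u)
    (hp : ∀ i b, |p i b - p 0 b| ≤ δ * u) (hn : ∀ i, |n i - n 0| ≤ δ * u) (b2 b3 : Fin 2) :
    |dt s b2 b3| ≤ 2 ^ (2 * h + 4) * δ := by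
  have hP : (1 : ℝ) ≤ 2 ^ h := one_le_pow₀ (by norm_num)
  have hP0 : (0 : ℝ) < 2 ^ h := by linarith
  have hδu : 0 ≤ δ * u := (abs_nonneg _).trans (hn 0)
  have hδ : 0 ≤ δ := by
    by_contra hc
    push Not at hc
    have : δ * u < 0 := mul_neg_of_neg_of_pos hc hu
    linarith
  obtain ⟨E, hE⟩ : ∃ E : Fin 3 → Fin 2 → ℝ, E = fun i b =>
    u * (s i b 1 - s 0 b 1) - n 0 * (s i b 0 - s 0 b 0) := ⟨_, rfl⟩
  have hEb : ∀ i b, |E i b| ≤ 4 * 2 ^ h * (δ * u) := by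
    intro i b
    have e1 : E i b = (u * s i b 1 - (p i b + n i * s i b 0)) -
        (u * s 0 b 1 - (p 0 b + n 0 * s 0 b 0)) + (p i b - p 0 b) + (n i - n 0) * s i b 0 := by
      rw [hE]
      ring
    rw [e1]
    have e2 : |(n i - n 0) * s i b 0| ≤ (δ * u) * 2 ^ h := by
      rw [abs_mul]
      exact mul_le_mul (hn i) (hs i b 0) (abs_nonneg _) hδu
    have e3 : δ * u ≤ 2 ^ h * (δ * u) := by nlinarith
    refine (abs_add_le _ _).trans ((add_le_add ((abs_add_le _ _).trans (add_le_add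
      ((abs_sub _ _).trans (add_le_add (hr i b) (hr 0 b))) (hp i b))) e2).trans ?_)
    linarith
  have e4 : u * dt s b2 b3 = (s 1 b2 0 - s 0 b2 0) * E 2 b3 - E 1 b2 * (s 2 b3 0 - s 0 b3 0) := by
    rw [hE]
    unfold dt
    ring
  have hd : ∀ i b, |s i b 0 - s 0 b 0| ≤ 2 * 2 ^ h := by
    intro i b
    refine (abs_sub _ _).trans ?_
    have := hs i b 0
    have := hs 0 b 0
    linarith
  have e5 : |u * dt s b2 b3| ≤ 16 * (2 ^ h * 2 ^ h) * (δ * u) := by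
    rw [e4]
    refine (abs_sub _ _).trans ?_
    rw [abs_mul, abs_mul]
    have f1 : |s 1 b2 0 - s 0 b2 0| * |E 2 b3| ≤ (2 * 2 ^ h) * (4 * 2 ^ h * (δ * u)) :=
      mul_le_mul (hd 1 b2) (hEb 2 b3) (abs_nonneg _) (by positivity)
    have f2 : |E 1 b2| * |s 2 b3 0 - s 0 b3 0| ≤ (4 * 2 ^ h * (δ * u)) * (2 * 2 ^ h) :=
      mul_le_mul (hEb 1 b2) (hd 2 b3) (abs_nonneg _) (by positivity)
    nlinarith
  rw [abs_mul, abs_of_pos hu] at e5
  have e6 : (2 : ℝ) ^ (2 * h + 4) = 16 * (2 ^ h * 2 ^ h) := by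
    rw [pow_add, pow_mul']
    ring
  rw [e6]
  have e7 : u * |dt s b2 b3| ≤ u * (16 * (2 ^ h * 2 ^ h) * δ) := by
    refine e5.trans (le_of_eq ?_)
    ring
  exact le_of_mul_le_mul_left e7 hu

/-- The maximal coefficient of order one dominates. -/
theorem sig_lin {k K : ℕ} {f : (Fin k → Fin (K + 1)) → ℝ} {y : Fin k → ℝ} {η P : ℝ}
    (hi : ∀ al, 2 ≤ tdg al → |shf y f al| ≤ η)
    (lo : ∃ al, tdg al = 1 ∧ η ≤ |shf y f al| ∧ P ≤ |shf y f al|) :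
    ∃ al, tdg al = 1 ∧ P ≤ |shf y f al| ∧ ∀ al', 1 ≤ tdg al' → |shf y f al'| ≤ |shf y f al| := by
  classical
  obtain ⟨al0, h1, h2, h3⟩ := lo
  obtain ⟨al, hal, hmax⟩ := Finset.exists_max_image
    (Finset.univ.filter fun al : Fin k → Fin (K + 1) => tdg al = 1) (fun al => |shf y f al|)
    ⟨al0, by simp [h1]⟩
  have h4 : tdg al = 1 := by simpa using hal
  have h5 := hmax al0 (by simp [h1])
  refine ⟨al, h4, h3.trans h5, fun al' h6 => ?_⟩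
  rcases Nat.eq_or_lt_of_le h6 with h7 | h7
  · exact hmax al' (by simp [← h7])
  · exact (hi al' h7).trans (h2.trans h5)

/-- The multi-index of one coordinate. -/
def sg1 {k K : ℕ} (hK : 1 ≤ K) (i : Fin k) : Fin k → Fin (K + 1) :=
  fun l => if l = i then ⟨1, by omega⟩ else 0

theorem tdg_sg1 {k K : ℕ} (hK : 1 ≤ K) (i : Fin k) : tdg (sg1 (k := k) hK i) = 1 := by
  unfold tdg sg1
  rw [Finset.sum_eq_single i]
  · rw [if_pos rfl]
  · intro b _ hb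
    rw [if_neg hb]
    rfl
  · intro h
    exact absurd (Finset.mem_univ i) h

theorem shf_sub {k K : ℕ} (y : Fin k → ℝ) (a b : (Fin k → Fin (K + 1)) → ℝ)
    (al : Fin k → Fin (K + 1)) :
    shf y (fun α => a α - b α) al = shf y a al - shf y b al := by
  unfold shf
  rw [← Finset.sum_sub_distrib]
  exact Finset.sum_congr rfl fun _ _ => by ring

/-- **The difference of two large gradients is large** (case `sig > 0`). -/
theorem sig_pair {k K h : ℕ} (hK : 1 ≤ K) {u M η : ℝ} (hu : 0 ≤ u) (lv : Fin (k + 1)) (j : Fin k)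
    {y : Fin (k + 1) → ℝ} {a b : (Fin (k + 1) → Fin (K + 1)) → ℝ} {ρa ρb : Fin k → ℝ}
    (hρa : ∀ i, |ρa i| ≤ 2 ^ h) (hρb : ∀ i, |ρb i| ≤ 2 ^ h) (hsep : 1 / 2 ^ h ≤ |ρa j - ρb j|)
    (ha : ∀ i, |shf y a (sg1 hK (lv.succAbove i)) + shf y a (sg1 hK lv) * ρa i| ≤ 2 ^ h * u)
    (hb : ∀ i, |shf y b (sg1 hK (lv.succAbove i)) + shf y b (sg1 hK lv) * ρb i| ≤ 2 ^ h * u)
    (hM : ∃ i, M ≤ |shf y a (sg1 hK i)| ∨ M ≤ |shf y b (sg1 hK i)|)
    (hMu : 2 ^ (3 * h + 3) * u ≤ M)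
    (hi : ∀ al, 2 ≤ tdg al → |shf y a al| ≤ η ∧ |shf y b al| ≤ η)
    (hη : 2 * η ≤ M / 2 ^ (3 * h + 3)) :
    ∃ al, tdg al = 1 ∧ M / 2 ^ (3 * h + 3) ≤ |shf y (fun α => a α - b α) al| ∧
      ∀ al', 1 ≤ tdg al' →
        |shf y (fun α => a α - b α) al'| ≤ |shf y (fun α => a α - b α) al| := by
  have h2 : (0 : ℝ) < 2 ^ (3 * h + 3) := by positivity
  obtain ⟨i0, hi0⟩ : ∃ i0 : Fin (k + 1), ∀ i, |shf y a (sg1 hK i) - shf y b (sg1 hK i)| ≤
      |shf y a (sg1 hK i0) - shf y b (sg1 hK i0)| :=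
    Finite.exists_max fun i : Fin (k + 1) => |shf y a (sg1 hK i) - shf y b (sg1 hK i)|
  obtain ⟨g, hg⟩ : ∃ g, g = |shf y a (sg1 hK i0) - shf y b (sg1 hK i0)| := ⟨_, rfl⟩
  rw [← hg] at hi0
  have k1 := sig_max j hu hρa hρb hsep ha hb (fun i => hi0 (lv.succAbove i)) (hi0 lv)
  have k2 : ∀ i, |shf y a (sg1 hK i)| ≤ 2 ^ (3 * h + 2) * (u + g) ∧
      |shf y b (sg1 hK i)| ≤ 2 ^ (3 * h + 2) * (u + g) := by
    intro i
    rcases Fin.eq_self_or_eq_succAbove lv i with h1 | ⟨l, h1⟩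
    · rw [h1]
      exact k1.1
    · rw [h1]
      exact k1.2 l
  have k3 : M ≤ 2 ^ (3 * h + 2) * (u + g) := by
    obtain ⟨i, h1 | h1⟩ := hM
    · exact h1.trans (k2 i).1
    · exact h1.trans (k2 i).2
  have k4 : M / 2 ^ (3 * h + 3) ≤ g := by
    rw [div_le_iff₀ h2]
    have e1 : (2 : ℝ) ^ (3 * h + 3) = 2 * 2 ^ (3 * h + 2) := by
      rw [pow_succ]
      ring
    rw [e1] at hMu ⊢
    nlinarith
  refine sig_lin (η := 2 * η) (fun al h1 => ?_) ⟨sg1 hK i0, tdg_sg1 hK i0, ?_, ?_⟩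
  · rw [shf_sub]
    have h3 := hi al h1
    refine (abs_sub _ _).trans ?_
    linarith [h3.1, h3.2]
  · rw [shf_sub, ← hg]
    exact hη.trans k4
  · rw [shf_sub, ← hg]
    exact k4

end Pool.SPN
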