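import Pool.Agent.H67.SPN.Bil

/-!
# The choice of a value on a mesh

`mesh`: a function with values `0, …, M` has a value `j` of probability at least `c (M, η)` such
that the smaller values together have probability at most `η` times the probability of `j`.
-/

set_option autoImplicit false

namespace Pool.SPN

open Finset Real
open Pool.Agent.H49.Ent Pool.Agent.H32.Dense Pool.STK Pool.KA Pool.K2S

variable {Ω : Type} [Fintype Ω]

theorem Pe_split {p : Ω → ℝ} (A B : Ω → Prop) :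
    Pe p A = Pe p (fun ω => A ω ∧ B ω) + Pe p (fun ω => A ω ∧ ¬ B ω) := by
  classical
  rw [Pe_eq, Pe_eq, Pe_eq, ← Finset.sum_add_distrib]
  refine Finset.sum_congr rfl fun ω _ => ?_
  by_cases hA : A ω <;> by_cases hB : B ω <;> simp [hA, hB]

theorem Pe_congr {p : Ω → ℝ} {A B : Ω → Prop} (h : ∀ ω, A ω ↔ B ω) : Pe p A = Pe p B := by
  have : A = B := funext fun ω => propext (h ω)
  rw [this]

theorem Pe_one' {p : Ω → ℝ} (hp : IsLaw p) {A : Ω → Prop} (h : ∀ ω, A ω) : Pe p A = 1 := by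
  classical
  rw [Pe_eq, ← hp.sum_one]
  exact Finset.sum_congr rfl fun ω _ => if_pos (h ω)

theorem Pe_zero' {p : Ω → ℝ} {A : Ω → Prop} (h : ∀ ω, ¬ A ω) : Pe p A = 0 := by
  classical
  rw [Pe_eq]
  exact Finset.sum_eq_zero fun ω _ => if_neg (h ω)

theorem Pe_nn {p : Ω → ℝ} (hp : ∀ ω, 0 ≤ p ω) (A : Ω → Prop) : 0 ≤ Pe p A := by
  classical
  rw [Pe_eq]
  refine Finset.sum_nonneg fun ω _ => ?_
  split_ifs
  · exact hp ω
  · exact le_rfl

theorem Pe_le_of {p : Ω → ℝ} (hp : ∀ ω, 0 ≤ p ω) {A B : Ω → Prop} (h : ∀ ω, A ω → B ω) :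
    Pe p A ≤ Pe p B := by
  classical
  rw [Pe_eq, Pe_eq]
  refine Finset.sum_le_sum fun ω _ => ?_
  by_cases hA : A ω
  · rw [if_pos hA, if_pos (h ω hA)]
  · rw [if_neg hA]
    split_ifs
    · exact hp ω
    · exact le_rfl

/-- **The choice of a value.** -/
theorem mesh (M : ℕ) {η : ℝ} (hη : 0 < η) (hη1 : η ≤ 1) {p : Ω → ℝ} (hp : IsLaw p) (r : Ω → ℕ)
    (hr : ∀ ω, r ω ≤ M) : ∃ j ≤ M, (η / 2) ^ M / 4 ≤ Pe p (fun ω => r ω = j) ∧
      Pe p (fun ω => r ω < j) ≤ η * Pe p (fun ω => r ω = j) := by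
  classical
  obtain ⟨F, hF⟩ : ∃ F : ℕ → ℝ, F = fun j => Pe p (fun ω => r ω < j) := ⟨_, rfl⟩
  have hF0 : F 0 = 0 := by
    rw [hF]
    exact Pe_zero' fun ω => Nat.not_lt_zero _
  have hFM : F (M + 1) = 1 := by
    rw [hF]
    exact Pe_one' hp fun ω => Nat.lt_succ_of_le (hr ω)
  have hstep : ∀ j, F (j + 1) = F j + Pe p (fun ω => r ω = j) := by
    intro j
    rw [hF]
    simp only
    rw [Pe_split (fun ω => r ω < j + 1) (fun ω => r ω < j)]
    congr 1
    · exact Pe_congr fun ω => ⟨fun h => h.2, fun h => ⟨by omega, h⟩⟩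
    · exact Pe_congr fun ω => ⟨fun h => by omega, fun h => ⟨by omega, by omega⟩⟩
  obtain ⟨a, ha⟩ : ∃ a, a = η / 2 := ⟨_, rfl⟩
  have ha0 : 0 < a := by rw [ha]; positivity
  have ha1 : a ≤ 1 / 2 := by rw [ha]; linarith
  -- the first level which is exceeded
  have ex : ∃ j, a ^ (M - j) / 2 < F (j + 1) := ⟨M, by
    rw [hFM, Nat.sub_self, pow_zero]
    norm_num⟩
  obtain ⟨j, hj⟩ : ∃ j, j = Nat.find ex := ⟨_, rfl⟩
  have h1 := Nat.find_spec ex
  rw [← hj] at h1
  have hjM : j ≤ M := by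
    rw [hj]
    exact Nat.find_min' ex (by
      rw [hFM, Nat.sub_self, pow_zero]
      norm_num)
  have h2 : F j ≤ a * (a ^ (M - j) / 2) := by
    rcases Nat.eq_zero_or_pos j with h0 | h0
    · rw [h0, hF0]
      positivity
    · have h3 : ¬ a ^ (M - (j - 1)) / 2 < F (j - 1 + 1) := Nat.find_min ex (by omega)
      push Not at h3
      rw [show j - 1 + 1 = j by omega, show M - (j - 1) = (M - j) + 1 by omega, pow_succ] at h3
      refine h3.trans (le_of_eq ?_)
      ring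
  have h3 := hstep j
  have hFj : 0 ≤ F j := by
    rw [hF]
    exact Pe_nn hp.nonneg _
  have h4 : a ^ M ≤ a ^ (M - j) := pow_le_pow_of_le_one ha0.le (by linarith) (Nat.sub_le _ _)
  have h5 : 0 < a ^ (M - j) := by positivity
  have h6 : F j ≤ a * (F j + Pe p (fun ω => r ω = j)) := by
    rw [← h3]
    exact h2.trans (mul_le_mul_of_nonneg_left h1.le ha0.le)
  have h7 : F j ≤ η * Pe p (fun ω => r ω = j) := by
    have e1 : (1 - a) * F j ≤ a * Pe p (fun ω => r ω = j) := by linarith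
    have e2 : (1 / 2) * F j ≤ (1 - a) * F j := mul_le_mul_of_nonneg_right (by linarith) hFj
    rw [ha] at e1 e2
    linarith
  refine ⟨j, hjM, ?_, ?_⟩
  · rw [← ha]
    have e1 : a * (a ^ (M - j) / 2) ≤ a ^ (M - j) / 4 := by nlinarith
    linarith
  · have h8 : F j = Pe p (fun ω => r ω < j) := by rw [hF]
    rw [← h8]
    exact h7

end Pool.SPN
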