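import Pool.Agent.H37.CLO.Cpl
import Pool.Agent.H8.DPL.Lay
import Pool.Agent.H99.JM.MKb

/-!
# Two labels: the bilinear inequality

`bil`: `H(x|A,W) + H(x|B,W) ≤ H(x|W) + H(x|A,B,W) + I(A;B|x,W)`. `cpI_lab`: two copies with the same
value of `lam`, restricted to an event of mass `c`, have mutual information at most `log (1/c)`
given `lam`. `sep_cp`: the triangle inequality for copies. `bil_leaf`: if `z` is full given `(A,W)`
and given `(B,W)` and the leaves of `A` and `B` are affine and have different slopes, then `(z,v)`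
is full given `W`, on a law of comparable density.
-/

set_option autoImplicit false

namespace Pool.SPN

open Finset Real
open Pool.Agent.H49.Ent Pool.Agent.H32.Dense Pool.STK Pool.KA Pool.K2S Pool.CLO37

variable {Ω S T α β τ Λ : Type} [Fintype Ω]

/-- **The bilinear inequality.** -/
theorem bil {p : Ω → ℝ} (hp : ∀ ω, 0 ≤ p ω) (x : Ω → S) (A : Ω → α) (B : Ω → β) (W : Ω → τ) :
    CH p x (fun ω => (A ω, W ω)) + CH p x (fun ω => (B ω, W ω)) ≤
      CH p x W + CH p x (fun ω => ((A ω, B ω), W ω)) +
      (CH p A (fun ω => (x ω, W ω)) + CH p B (fun ω => (x ω, W ω)) -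
        CH p (fun ω => (A ω, B ω)) (fun ω => (x ω, W ω))) := by
  have a1 := CH_chain hp x A W
  have a2 := CH_chain hp A x W
  have b1 := CH_chain hp x B W
  have b2 := CH_chain hp B x W
  have c1 := CH_chain hp x (fun ω => (A ω, B ω)) W
  have c2 := CH_chain hp (fun ω => (A ω, B ω)) x W
  have s1 : CH p (fun ω => (x ω, A ω)) W = CH p (fun ω => (A ω, x ω)) W :=
    CH_congr hp (fun _ _ _ _ h => by simp only [Prod.mk.injEq] at h ⊢; tauto)
      (fun _ _ _ _ h => by simp only [Prod.mk.injEq] at h ⊢; tauto) (fun _ _ _ _ h => h)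
      (fun _ _ _ _ h => h)
  have s2 : CH p (fun ω => (x ω, B ω)) W = CH p (fun ω => (B ω, x ω)) W :=
    CH_congr hp (fun _ _ _ _ h => by simp only [Prod.mk.injEq] at h ⊢; tauto)
      (fun _ _ _ _ h => by simp only [Prod.mk.injEq] at h ⊢; tauto) (fun _ _ _ _ h => h)
      (fun _ _ _ _ h => h)
  have s3 : CH p (fun ω => (x ω, (A ω, B ω))) W = CH p (fun ω => ((A ω, B ω), x ω)) W :=
    CH_congr hp (fun _ _ _ _ h => by simp only [Prod.mk.injEq] at h ⊢; tauto)
      (fun _ _ _ _ h => by simp only [Prod.mk.injEq] at h ⊢; tauto) (fun _ _ _ _ h => h)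
      (fun _ _ _ _ h => h)
  have d1 := CH_subadd hp A B W
  linarith

/-- Gibbs: the entropy is at most the cross entropy. -/
theorem gibbs {q : Ω → ℝ} (hq : IsLaw q) (lam : Ω → Λ) (P : Λ → ℝ) (hP : ∀ s, 0 ≤ P s)
    (hpos : ∀ ω, 0 < q ω → 0 < P (lam ω)) (hsum : ∀ F : Finset Λ, ∑ s ∈ F, P s ≤ 1) :
    Ex q (fun ω => Real.log (P (lam ω))) ≤ Ex q (fun ω => Real.log (law q lam (lam ω))) := by
  have h1 := CH_le_cross hq.nonneg hq.sum_one lam (fun _ => ()) (fun _ s => P s)
    hpos (fun _ s => hP s) (fun _ _ F => hsum F)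
  rw [CH_eq_neg_sum hq.nonneg] at h1
  have h2 : ∀ ω, law q (fun ω => (lam ω, ())) (lam ω, ()) / law q (fun _ : Ω => ()) () =
      law q lam (lam ω) := by
    intro ω
    have e1 : law q (fun _ : Ω => ()) () = 1 := by
      unfold law
      simpa using hq.sum_one
    have e2 : law q (fun ω => (lam ω, ())) (lam ω, ()) = law q lam (lam ω) := by
      unfold law
      refine Finset.sum_congr rfl fun ω' _ => ?_
      by_cases h : lam ω' = lam ω
      · have h1 : (lam ω', ()) = (lam ω, ()) := by rw [h]
        rw [if_pos h, if_pos h1]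
      · rw [if_neg h, if_neg (fun h' => h (Prod.ext_iff.1 h').1)]
    rw [e1, e2, div_one]
  simp_rw [h2] at h1
  have e3 : ∀ f : Ω → ℝ, Ex q (fun ω => -f ω) = -Ex q f := by
    intro f
    unfold Ex
    rw [← Finset.sum_neg_distrib]
    exact Finset.sum_congr rfl fun ω _ => by ring
  rw [e3, e3] at h1
  linarith

theorem law_le_sum {p : Ω → ℝ} (hp : IsLaw p) (lam : Ω → Λ) (F : Finset Λ) :
    ∑ s ∈ F, law p lam s ≤ 1 := by
  classical
  rw [← hp.sum_one]
  unfold law
  rw [Finset.sum_comm]
  refine Finset.sum_le_sum fun ω _ => ?_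
  rw [Finset.sum_ite_eq]
  split_ifs
  · exact le_rfl
  · exact hp.nonneg ω

/-- Copies restricted to an event: the mutual information. -/
theorem cpI {p : Ω → ℝ} (hp : IsLaw p) (lam : Ω → Λ) (E : Ω × Ω → Prop)
    (hE : 0 < Pe (cp p lam) E) :
    CH (cond (cp p lam) E True) (fun v => v.1) (fun v => lam v.1) +
      CH (cond (cp p lam) E True) (fun v => v.2) (fun v => lam v.1) ≤
    CH (cond (cp p lam) E True) (fun v => v) (fun v => lam v.1) - Real.log (Pe (cp p lam) E) := by
  classical
  have hr := cp_isLaw (lam := lam) hp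
  have hq : IsLaw (cond (cp p lam) E True) := isLaw_cond hr hE
  obtain ⟨q, hqd⟩ : ∃ q, q = cond (cp p lam) E True := ⟨_, rfl⟩
  obtain ⟨c, hc⟩ : ∃ c, c = Pe (cp p lam) E := ⟨_, rfl⟩
  rw [← hqd] at hq ⊢
  rw [← hc] at hE ⊢
  have hpos : ∀ v, 0 < q v → 0 < cp p lam v ∧ E v := by
    intro v hv
    rw [hqd] at hv
    have h1 := (cond_pos_iff hr.nonneg E True v).1 hv
    exact ⟨h1.1, by simpa using h1.2⟩
  have hval : ∀ v, 0 < q v → q v = p v.1 * p v.2 / law p lam (lam v.1) / c := by
    intro v hv
    obtain ⟨h1, h2⟩ := hpos v hv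
    have h3 := (cp_pos hp.nonneg h1).2.2
    rw [hqd]
    unfold Pool.Agent.H49.Ent.cond cp
    have e1 : E v = True := by simpa using h2
    rw [if_pos e1, if_pos h3, h3, hc]
    rfl
  -- the cross entropies
  have k1 := CH_le_cross hq.nonneg hq.sum_one (fun v : Ω × Ω => v.1) (fun v => lam v.1)
    (fun s ω => if lam ω = s then p ω / law p lam s else 0)
    (by
      intro v hv
      obtain ⟨h1, -⟩ := hpos v hv
      obtain ⟨h2, h3, h4⟩ := cp_pos hp.nonneg h1
      rw [if_pos rfl]
      exact div_pos h2 (law_pos_of hp.nonneg h2))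
    (by
      intro s ω
      split_ifs
      · exact div_nonneg (hp.nonneg _) (law_nonneg hp.nonneg _ _)
      · exact le_rfl)
    (by
      intro v hv F
      obtain ⟨h1, -⟩ := hpos v hv
      obtain ⟨h2, h3, h4⟩ := cp_pos hp.nonneg h1
      have h5 := law_pos_of (lam := lam) hp.nonneg h2
      have h6 : ∑ ω ∈ F, (if lam ω = lam v.1 then p ω / law p lam (lam v.1) else 0) ≤
          ∑ ω, (if lam ω = lam v.1 then p ω / law p lam (lam v.1) else 0) := by
        refine Finset.sum_le_sum_of_subset_of_nonneg (Finset.subset_univ _) fun ω _ _ => ?_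
        split_ifs
        · exact div_nonneg (hp.nonneg _) h5.le
        · exact le_rfl
      refine h6.trans (le_of_eq ?_)
      have h7 : ∑ ω, (if lam ω = lam v.1 then p ω / law p lam (lam v.1) else 0) =
          (∑ ω, if lam ω = lam v.1 then p ω else 0) / law p lam (lam v.1) := by
        rw [Finset.sum_div]
        refine Finset.sum_congr rfl fun ω _ => ?_
        split_ifs <;> simp
      rw [h7]
      have h8 : ∑ ω, (if lam ω = lam v.1 then p ω else 0) = law p lam (lam v.1) := by
        unfold law
        rfl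
      rw [h8, div_self h5.ne'])
  have k2 := CH_le_cross hq.nonneg hq.sum_one (fun v : Ω × Ω => v.2) (fun v => lam v.1)
    (fun s ω => if lam ω = s then p ω / law p lam s else 0)
    (by
      intro v hv
      obtain ⟨h1, -⟩ := hpos v hv
      obtain ⟨h2, h3, h4⟩ := cp_pos hp.nonneg h1
      rw [if_pos h4.symm]
      exact div_pos h3 (law_pos_of hp.nonneg h2))
    (by
      intro s ω
      split_ifs
      · exact div_nonneg (hp.nonneg _) (law_nonneg hp.nonneg _ _)
      · exact le_rfl)
    (by
      intro v hv F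
      obtain ⟨h1, -⟩ := hpos v hv
      obtain ⟨h2, h3, h4⟩ := cp_pos hp.nonneg h1
      have h5 := law_pos_of (lam := lam) hp.nonneg h2
      have h6 : ∑ ω ∈ F, (if lam ω = lam v.1 then p ω / law p lam (lam v.1) else 0) ≤
          ∑ ω, (if lam ω = lam v.1 then p ω / law p lam (lam v.1) else 0) := by
        refine Finset.sum_le_sum_of_subset_of_nonneg (Finset.subset_univ _) fun ω _ _ => ?_
        split_ifs
        · exact div_nonneg (hp.nonneg _) h5.le
        · exact le_rfl
      refine h6.trans (le_of_eq ?_)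
      have h7 : ∑ ω, (if lam ω = lam v.1 then p ω / law p lam (lam v.1) else 0) =
          (∑ ω, if lam ω = lam v.1 then p ω else 0) / law p lam (lam v.1) := by
        rw [Finset.sum_div]
        refine Finset.sum_congr rfl fun ω _ => ?_
        split_ifs <;> simp
      rw [h7]
      have h8 : ∑ ω, (if lam ω = lam v.1 then p ω else 0) = law p lam (lam v.1) := by
        unfold law
        rfl
      rw [h8, div_self h5.ne'])
  have k3 := gibbs hq (fun v : Ω × Ω => lam v.1) (law p lam) (fun s => law_nonneg hp.nonneg _ _)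
    (fun v hv => law_pos_of hp.nonneg (cp_pos hp.nonneg (hpos v hv).1).1)
    (fun F => law_le_sum hp lam F)
  rw [CH_eq_neg_sum hq.nonneg (fun v : Ω × Ω => v) (fun v => lam v.1)]
  have k4 : Ex q (fun v => -Real.log (law q (fun v : Ω × Ω => (v, lam v.1)) (v, lam v.1) /
      law q (fun v => lam v.1) (lam v.1))) =
      Ex q (fun v => (-Real.log (if lam v.1 = lam v.1 then p v.1 / law p lam (lam v.1) else 0) +
        -Real.log (if lam v.2 = lam v.1 then p v.2 / law p lam (lam v.1) else 0)) +
        (Real.log c - (Real.log (law p lam (lam v.1)) -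
          Real.log (law q (fun v => lam v.1) (lam v.1))))) := by
    unfold Ex
    refine Finset.sum_congr rfl fun v _ => ?_
    rcases (hq.nonneg v).eq_or_lt with h0 | h0
    · rw [← h0, zero_mul, zero_mul]
    · congr 1
      obtain ⟨h1, h2⟩ := hpos v h0
      obtain ⟨h3, h4, h5⟩ := cp_pos hp.nonneg h1
      have h6 := law_pos_of (lam := lam) hp.nonneg h3
      have h7 : law q (fun v : Ω × Ω => (v, lam v.1)) (v, lam v.1) = q v := by
        unfold law
        rw [Finset.sum_eq_single v]
        · rw [if_pos rfl]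
        · intro w _ hw
          rw [if_neg]
          intro h
          exact hw (Prod.ext_iff.1 h).1
        · intro h
          exact absurd (Finset.mem_univ v) h
      have h8 : 0 < law q (fun v => lam v.1) (lam v.1) :=
        law_pos hq.nonneg (fun v => lam v.1) h0
      beta_reduce
      rw [h7, if_pos rfl, if_pos h5.symm, hval v h0,
        Real.log_div (by positivity) h8.ne', Real.log_div (by positivity) hE.ne',
        Real.log_div (by positivity) h6.ne', Real.log_mul h3.ne' h4.ne',
        Real.log_div h3.ne' h6.ne', Real.log_div h4.ne' h6.ne']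
      ring
  rw [k4, Ex_add, Ex_add, Ex_sub, Ex_sub, Ex_const hq.sum_one]
  linarith

/-- Copies restricted to an event: the mutual information of two labels. -/
theorem cpI_lab {p : Ω → ℝ} (hp : IsLaw p) (lam : Ω → Λ) (E : Ω × Ω → Prop)
    (hE : 0 < Pe (cp p lam) E) (A : Ω → α) (B : Ω → β) :
    CH (cond (cp p lam) E True) (fun v => A v.1) (fun v => lam v.1) +
      CH (cond (cp p lam) E True) (fun v => B v.2) (fun v => lam v.1) ≤
    CH (cond (cp p lam) E True) (fun v => (A v.1, B v.2)) (fun v => lam v.1) -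
      Real.log (Pe (cp p lam) E) := by
  have hr := cp_isLaw (lam := lam) hp
  have hq : IsLaw (cond (cp p lam) E True) := isLaw_cond hr hE
  have h0 := hq.nonneg
  have h1 := cpI hp lam E hE
  obtain ⟨q, hqd⟩ : ∃ q, q = cond (cp p lam) E True := ⟨_, rfl⟩
  rw [← hqd] at h0 h1 ⊢
  have a1 : CH q (fun v => (v.1, A v.1)) (fun v => lam v.1) =
      CH q (fun v => v.1) (fun v => lam v.1) :=
    CH_congr h0 (fun _ _ _ _ h => by simp only [Prod.mk.injEq] at h ⊢; tauto)
      (fun v v' _ _ h => by
        simp only [Prod.mk.injEq] at h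
        rw [h.1]) (fun _ _ _ _ h => h) (fun _ _ _ _ h => h)
  have a2 := CH_chain h0 (fun v : Ω × Ω => v.1) (fun v => A v.1) (fun v => lam v.1)
  have b1 : CH q (fun v => (v.2, B v.2)) (fun v => lam v.1) =
      CH q (fun v => v.2) (fun v => lam v.1) :=
    CH_congr h0 (fun _ _ _ _ h => by simp only [Prod.mk.injEq] at h ⊢; tauto)
      (fun v v' _ _ h => by
        simp only [Prod.mk.injEq] at h
        rw [h.1]) (fun _ _ _ _ h => h) (fun _ _ _ _ h => h)
  have b2 := CH_chain h0 (fun v : Ω × Ω => v.2) (fun v => B v.2) (fun v => lam v.1)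
  have c1 : CH q (fun v => (v, (A v.1, B v.2))) (fun v => lam v.1) =
      CH q (fun v => v) (fun v => lam v.1) :=
    CH_congr h0 (fun _ _ _ _ h => by simp only [Prod.mk.injEq] at h ⊢; tauto)
      (fun v v' _ _ h => by
        simp only [Prod.mk.injEq] at h
        rw [h.1]) (fun _ _ _ _ h => h) (fun _ _ _ _ h => h)
  have c2 := CH_chain h0 (fun v : Ω × Ω => v) (fun v => (A v.1, B v.2)) (fun v => lam v.1)
  have d1 : CH q (fun v => v) (fun v => ((A v.1, B v.2), lam v.1)) ≤
      CH q (fun v => v.1) (fun v => ((A v.1, B v.2), lam v.1)) +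
      CH q (fun v => v.2) (fun v => ((A v.1, B v.2), lam v.1)) :=
    CH_subadd h0 (fun v : Ω × Ω => v.1) (fun v => v.2) _
  have d2 : CH q (fun v => v.1) (fun v => ((A v.1, B v.2), lam v.1)) ≤
      CH q (fun v => v.1) (fun v => (A v.1, lam v.1)) :=
    CH_mono_cond h0 fun _ _ _ _ h => by simp only [Prod.mk.injEq] at h ⊢; tauto
  have d3 : CH q (fun v => v.2) (fun v => ((A v.1, B v.2), lam v.1)) ≤
      CH q (fun v => v.2) (fun v => (B v.2, lam v.1)) :=
    CH_mono_cond h0 fun _ _ _ _ h => by simp only [Prod.mk.injEq] at h ⊢; tauto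
  linarith

/-- **The triangle inequality for copies.** -/
theorem sep_cp {p : Ω → ℝ} (hp : IsLaw p) (lam : Ω → Λ) (a b : Ω → ℝ) (δ : ℝ) :
    Pe p (fun ω => 3 * δ ≤ |a ω - b ω|) ≤ 3 * Pe (cp p lam) (fun v => δ ≤ |a v.1 - b v.2|) := by
  classical
  have hp0 := hp.nonneg
  rw [Pe_eq, Pe_eq]
  obtain ⟨f, hf⟩ : ∃ f : Ω → Ω → ℝ, f = fun x y => if δ ≤ |a x - b y| then 1 else 0 := ⟨_, rfl⟩
  obtain ⟨g, hg⟩ : ∃ g : Ω → ℝ, g = fun x => if 3 * δ ≤ |a x - b x| then 1 else 0 := ⟨_, rfl⟩
  have hf0 : ∀ x y, 0 ≤ f x y := by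
    intro x y
    rw [hf]
    simp only
    split_ifs <;> norm_num
  have hpt : ∀ x y z, g x ≤ f x z + f y z + f y x := by
    intro x y z
    have h1 := hf0 x z
    have h2 := hf0 y z
    have h3 := hf0 y x
    by_cases h : 3 * δ ≤ |a x - b x|
    · have e1 : g x = 1 := by
        rw [hg]
        simp only
        rw [if_pos h]
      rw [e1]
      by_contra hcon
      push Not at hcon
      have q : ∀ u w, f u w < 1 → |a u - b w| < δ := by
        intro u w huw
        by_contra hc
        push Not at hc
        rw [hf] at huw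
        simp only at huw
        rw [if_pos hc] at huw
        exact lt_irrefl _ huw
      have q1 := q x z (by linarith)
      have q2 := q y z (by linarith)
      have q3 := q y x (by linarith)
      rw [abs_lt] at q1 q2 q3
      have : |a x - b x| < 3 * δ := by
        rw [abs_lt]
        constructor <;> linarith [q1.1, q1.2, q2.1, q2.2, q3.1, q3.2]
      linarith
    · have e1 : g x = 0 := by
        rw [hg]
        simp only
        rw [if_neg h]
      rw [e1]
      linarith
  -- the fibers
  obtain ⟨P, hP⟩ : ∃ P : Ω → ℝ, P = fun x => law p lam (lam x) := ⟨_, rfl⟩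
  obtain ⟨m, hm⟩ : ∃ m : Ω → Ω → ℝ, m = fun x y => if lam x = lam y then p y else 0 := ⟨_, rfl⟩
  have hm0 : ∀ x y, 0 ≤ m x y := by
    intro x y
    rw [hm]
    simp only
    split_ifs
    · exact hp0 y
    · exact le_rfl
  have hmP : ∀ x, ∑ y, m x y = P x := by
    intro x
    rw [hm, hP]
    simp only
    unfold law
    refine Finset.sum_congr rfl fun y _ => ?_
    by_cases h : lam x = lam y
    · rw [if_pos h, if_pos h.symm]
    · rw [if_neg h, if_neg (Ne.symm h)]
  have hmm : ∀ x y, lam x = lam y → m x = m y := by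
    intro x y h
    rw [hm]
    funext z
    simp only
    rw [h]
  have hPP : ∀ x y, lam x = lam y → P x = P y := by
    intro x y h
    rw [hP]
    simp only
    rw [h]
  have hP0 : ∀ x, 0 < p x → 0 < P x := by
    intro x hx
    rw [hP]
    exact law_pos_of hp0 hx
  -- left side
  have l1 : ∑ ω, (if 3 * δ ≤ |a ω - b ω| then p ω else 0) = ∑ x, p x * g x := by
    refine Finset.sum_congr rfl fun x _ => ?_
    rw [hg]
    simp only
    split_ifs <;> simp
  have r1 : ∑ v : Ω × Ω, (if δ ≤ |a v.1 - b v.2| then cp p lam v else 0) =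
      ∑ x, p x * ((∑ y, m x y * f x y) / P x) := by
    rw [Fintype.sum_prod_type]
    refine Finset.sum_congr rfl fun x _ => ?_
    rw [Finset.sum_div, Finset.mul_sum]
    refine Finset.sum_congr rfl fun y _ => ?_
    unfold cp
    rw [hf, hm, hP]
    simp only
    by_cases h : lam x = lam y
    · rw [if_pos h, if_pos h, h]
      split_ifs <;> ring
    · rw [if_neg h, if_neg h]
      split_ifs <;> ring
  -- the second form of the right side
  have r2 : ∑ x, p x * ((∑ y, m x y * f y x) / P x) =
      ∑ x, p x * ((∑ y, m x y * f x y) / P x) := by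
    have e1 : ∀ g' : Ω → Ω → ℝ, ∑ x, p x * ((∑ y, m x y * g' x y) / P x) =
        ∑ x, ∑ y, if lam x = lam y then p x * p y / P x * g' x y else 0 := by
      intro g'
      refine Finset.sum_congr rfl fun x _ => ?_
      rw [Finset.sum_div, Finset.mul_sum]
      refine Finset.sum_congr rfl fun y _ => ?_
      rw [hm]
      simp only
      split_ifs <;> ring
    rw [e1, e1, Finset.sum_comm]
    refine Finset.sum_congr rfl fun x _ => Finset.sum_congr rfl fun y _ => ?_
    by_cases h : lam x = lam y
    · rw [if_pos h, if_pos h.symm, hPP x y h]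
      ring
    · rw [if_neg h, if_neg (Ne.symm h)]
  have r3 : ∑ x, p x * ((∑ y, ∑ z, m x y * m x z * f y z) / (P x * P x)) =
      ∑ x, p x * ((∑ y, m x y * f x y) / P x) := by
    have e1 : ∀ x, p x * ((∑ y, ∑ z, m x y * m x z * f y z) / (P x * P x)) =
        ∑ y, if lam x = lam y then p x / P x * (p y * ((∑ z, m y z * f y z) / P y)) else 0 := by
      intro x
      rw [Finset.sum_div, Finset.mul_sum]
      refine Finset.sum_congr rfl fun y _ => ?_
      by_cases h : lam x = lam y
      · rw [if_pos h, hmm x y h, hPP x y h]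
        have e2 : ∀ z, m y y * m y z * f y z = p y * (m y z * f y z) := by
          intro z
          have : m y y = p y := by
            rw [hm]
            simp
          rw [this]
          ring
        simp_rw [e2]
        rw [← Finset.mul_sum]
        ring
      · rw [if_neg h]
        have : m x y = 0 := by
          rw [hm]
          simp only
          rw [if_neg h]
        simp_rw [this, zero_mul]
        rw [Finset.sum_const_zero, zero_div, mul_zero]
    simp_rw [e1]
    rw [Finset.sum_comm]
    refine Finset.sum_congr rfl fun y _ => ?_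
    rcases (hp0 y).eq_or_lt with h0 | h0
    · rw [← h0]
      simp
    · have h1 := hP0 y h0
      have e3 : ∀ x, (if lam x = lam y then p x / P x * (p y * ((∑ z, m y z * f y z) / P y))
          else 0) = (m y x) * (p y * ((∑ z, m y z * f y z) / P y) / P y) := by
        intro x
        rw [hm]
        simp only
        by_cases h : lam x = lam y
        · rw [if_pos h, if_pos h.symm, hPP x y h]
          ring
        · rw [if_neg h, if_neg (Ne.symm h), zero_mul]
      simp_rw [e3]
      rw [← Finset.sum_mul, hmP]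
      field_simp
  -- conclusion
  rw [l1, r1]
  have main : ∀ x, p x * g x ≤ p x * ((∑ y, m x y * f x y) / P x) +
      p x * ((∑ y, ∑ z, m x y * m x z * f y z) / (P x * P x)) +
      p x * ((∑ y, m x y * f y x) / P x) := by
    intro x
    rcases (hp0 x).eq_or_lt with h0 | h0
    · rw [← h0]
      simp
    · have h1 := hP0 x h0
      rw [← mul_add, ← mul_add]
      refine mul_le_mul_of_nonneg_left ?_ h0.le
      have e1 : g x = (∑ y, ∑ z, m x y * m x z * g x) / (P x * P x) := by
        have : ∑ y, ∑ z, m x y * m x z * g x = P x * P x * g x := by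
          rw [← hmP x, Finset.sum_mul_sum, Finset.sum_mul]
          refine Finset.sum_congr rfl fun y _ => ?_
          rw [Finset.sum_mul]
        rw [this]
        field_simp
      have e2 : (∑ y, m x y * f x y) / P x =
          (∑ y, ∑ z, m x y * m x z * f x z) / (P x * P x) := by
        have : ∑ y, ∑ z, m x y * m x z * f x z = P x * ∑ z, m x z * f x z := by
          rw [← hmP x, Finset.sum_mul_sum]
          refine Finset.sum_congr rfl fun y _ => Finset.sum_congr rfl fun z _ => ?_
          ring
        rw [this]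
        field_simp
      have e3 : (∑ y, m x y * f y x) / P x =
          (∑ y, ∑ z, m x y * m x z * f y x) / (P x * P x) := by
        have : ∑ y, ∑ z, m x y * m x z * f y x = (∑ y, m x y * f y x) * P x := by
          rw [← hmP x, Finset.sum_mul_sum]
          refine Finset.sum_congr rfl fun y _ => Finset.sum_congr rfl fun z _ => ?_
          ring
        rw [this]
        field_simp
      rw [e1, e2, e3, ← add_div, ← add_div]
      refine div_le_div_of_nonneg_right ?_ (by positivity)
      rw [← Finset.sum_add_distrib, ← Finset.sum_add_distrib]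
      refine Finset.sum_le_sum fun y _ => ?_
      rw [← Finset.sum_add_distrib, ← Finset.sum_add_distrib]
      refine Finset.sum_le_sum fun z _ => ?_
      have h2 := hpt x y z
      have h3 : 0 ≤ m x y * m x z := mul_nonneg (hm0 _ _) (hm0 _ _)
      nlinarith [mul_le_mul_of_nonneg_left h2 h3]
  have fin := Finset.sum_le_sum fun x (_ : x ∈ (univ : Finset Ω)) => main x
  rw [Finset.sum_add_distrib, Finset.sum_add_distrib, r2, r3] at fin
  linarith

end Pool.SPN
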