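import Pool.Agent.H3.R2.Vex
import Pool.Agent.H73.MK.Mkl

/-!
# Multilinear Kakeya in entropy form, between two scales, the angle is paid once

`mkdl`: the statement of `Pool.MKV.mkd` with the loss `C (√(L - R) + 1 + h + log Kd + log B₀)`.
-/

set_option autoImplicit false

namespace Pool.SPN

open Finset Real
open Pool.Agent.H49.Ent Pool.Agent.H32.Dense Pool.STK Pool.MKE Pool.MKV

theorem exists_two_pow {y : ℝ} (hy : 1 ≤ y) :
    ∃ n : ℕ, y ≤ 2 ^ n ∧ (n : ℝ) ≤ 1 + 2 * Real.log y := by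
  have hl2 : (0.5 : ℝ) < Real.log 2 := by
    have := Real.log_two_gt_d9
    linarith
  have hl : 0 ≤ Real.log y := Real.log_nonneg hy
  refine ⟨⌈Real.log y / Real.log 2⌉₊, ?_, ?_⟩
  · have h1 := Nat.le_ceil (Real.log y / Real.log 2)
    rw [div_le_iff₀ (by linarith)] at h1
    have h2 : Real.log y ≤ Real.log (2 ^ ⌈Real.log y / Real.log 2⌉₊) := by
      rw [Real.log_pow]
      exact h1
    exact (Real.log_le_log_iff (by linarith) (by positivity)).1 h2
  · have h1 := Nat.ceil_lt_add_one (show 0 ≤ Real.log y / Real.log 2 by positivity)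
    have h2 : Real.log y / Real.log 2 ≤ 2 * Real.log y := by
      rw [div_le_iff₀ (by linarith)]
      nlinarith
    linarith

/-- **Multilinear Kakeya in entropy form, between two scales, the angle is paid once.** -/
theorem mkdl1 (c r : ℕ) : ∃ C : ℝ, 0 ≤ C ∧ ∀ {Ω κ : Type} [Fintype Ω] {p : Ω → ℝ}, IsLaw p →
    ∀ {x : Ω → Fin c → ℝ} {d : Ω → Fin c → Fin c → ℝ} {Kd B₀ : ℝ} {R L : ℕ}, 1 ≤ Kd → 1 ≤ B₀ →
    R ≤ L → (∀ ω, 0 < p ω → ∀ i j, |d ω i j| ≤ 1) →
    (∀ ω, 0 < p ω → 1 / Kd ≤ |(Matrix.of (d ω)).det|) →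
    ∀ (g : Fin c → Fin r) {Λ : Fin r → Type} (Lam : ∀ a, Ω → Λ a) (W : Ω → κ),
    (∀ a ω ω', 0 < p ω → 0 < p ω' → fl R (x ω) = fl R (x ω') → Lam a ω = Lam a ω' →
      W ω = W ω' → ∃ t : Fin c → ℝ, (∀ i, g i ≠ a → t i = 0) ∧
        ∀ j, |x ω j - x ω' j - ∑ i, t i * d ω i j| ≤ B₀ / 2 ^ L) →
    ∑ a, CH p (fun ω => fl L (x ω)) (fun ω => (fl R (x ω), (Lam a ω, W ω))) ≤
      CH p (fun ω => fl L (x ω)) (fun ω => (fl R (x ω), W ω)) +
        C * (√((L : ℝ) - R) + 1 + Real.log Kd + Real.log B₀) := by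
  obtain ⟨C1, hC1, h1⟩ := lsl_le c r (B := 1) zero_le_one
  obtain ⟨f, hf⟩ : ∃ f : ℝ, f = c.factorial := ⟨_, rfl⟩
  have hf1 : 1 ≤ f := by
    rw [hf]
    exact_mod_cast Nat.succ_le_of_lt (Nat.factorial_pos c)
  have lf : 0 ≤ Real.log f := Real.log_nonneg hf1
  have lc : 0 ≤ Real.log ((c : ℝ) + 1) := Real.log_nonneg (by
    have : (0 : ℝ) ≤ c := Nat.cast_nonneg c
    linarith)
  refine ⟨C1 * (6 + 2 * Real.log f) + r * (c * (8 + 2 * Real.log f + 2 * Real.log (c + 1))),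
    by positivity, ?_⟩
  intro Ω κ _ p hp x d Kd B₀ R L hK hB hRL hd hdet g Λ Lam W hl
  have hp0 := hp.nonneg
  have hK0 : 0 < Kd := by linarith
  have lK := Real.log_nonneg hK
  have lB := Real.log_nonneg hB
  have hc0 : (0 : ℝ) ≤ c := Nat.cast_nonneg c
  have hr0 : (0 : ℝ) ≤ r := Nat.cast_nonneg r
  obtain ⟨kap, hkap, hkap2⟩ := exists_two_pow (y := f * Kd)
    (one_le_mul_of_one_le_of_one_le hf1 hK)
  rw [Real.log_mul (by linarith) (by linarith)] at hkap2
  obtain ⟨θ, hθ, hθ2⟩ := exists_two_pow (y := (c + 1) * (f * Kd) * B₀)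
    (one_le_mul_of_one_le_of_one_le (one_le_mul_of_one_le_of_one_le (by linarith)
      (one_le_mul_of_one_le_of_one_le hf1 hK)) hB)
  rw [Real.log_mul (by positivity) (by linarith), Real.log_mul (by positivity) (by positivity),
    Real.log_mul (by linarith) (by linarith)] at hθ2
  obtain ⟨q, hq⟩ : ∃ q, q = √((L : ℝ) - R) := ⟨_, rfl⟩
  rw [← hq]
  have hq0 : 0 ≤ q := by
    rw [hq]
    exact Real.sqrt_nonneg _
  have hLR : (0 : ℝ) ≤ (L : ℝ) - R := by
    have : (R : ℝ) ≤ L := by exact_mod_cast hRL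
    linarith
  have hqq : q * q = (L : ℝ) - R := by
    rw [hq]
    exact Real.mul_self_sqrt hLR
  obtain ⟨Z, hZ⟩ : ∃ Z, Z = q + 1 + Real.log Kd + Real.log B₀ := ⟨_, rfl⟩
  rw [← hZ]
  have hZ1 : 1 ≤ Z := by linarith
  have hθZ : (θ : ℝ) ≤ (3 + 2 * Real.log f + 2 * Real.log (c + 1)) * Z := by
    have g1 : (2 * Real.log f + 2 * Real.log ((c : ℝ) + 1)) * 1 ≤
        (2 * Real.log f + 2 * Real.log (c + 1)) * Z :=
      mul_le_mul_of_nonneg_left hZ1 (by positivity)
    nlinarith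
  have hkZ : (kap : ℝ) ≤ (3 + 2 * Real.log f) * Z := by
    have g1 : (2 * Real.log f) * 1 ≤ (2 * Real.log f) * Z :=
      mul_le_mul_of_nonneg_left hZ1 (by positivity)
    nlinarith
  rcases Nat.lt_or_ge L (R + θ) with hs | hs
  · -- few digits
    have e2 : ∀ a, CH p (fun ω => fl L (x ω)) (fun ω => (fl R (x ω), (Lam a ω, W ω))) ≤
        c * (θ + 2) := by
      intro a
      have g1 := ch_tail hp x (fun ω => (fl R (x ω), (Lam a ω, W ω))) (L₁ := R) (L := L) (m := θ)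
        hs.le
      have g2 : CH p (fun ω => fl R (x ω)) (fun ω => (fl R (x ω), (Lam a ω, W ω))) = 0 :=
        CH_eq_zero hp0 fun ω ω' _ _ hh => (Prod.ext_iff.1 hh).1
      linarith
    have e3 := Finset.sum_le_sum fun a (_ : a ∈ (univ : Finset (Fin r))) => e2 a
    rw [Finset.sum_const, Finset.card_univ, Fintype.card_fin, nsmul_eq_mul] at e3
    have e4 := CH_nonneg hp0 (fun ω => fl L (x ω)) (fun ω => (fl R (x ω), W ω))
    have e5 : (r : ℝ) * (c * (θ + 2)) ≤
        r * (c * (8 + 2 * Real.log f + 2 * Real.log (c + 1))) * Z := by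
      have g1 : (θ : ℝ) + 2 ≤ (8 + 2 * Real.log f + 2 * Real.log (c + 1)) * Z := by nlinarith
      calc (r : ℝ) * (c * (θ + 2)) ≤
          r * (c * ((8 + 2 * Real.log f + 2 * Real.log (c + 1)) * Z)) :=
            mul_le_mul_of_nonneg_left (mul_le_mul_of_nonneg_left g1 hc0) hr0
        _ = _ := by ring
    have e6 : 0 ≤ C1 * (6 + 2 * Real.log f) * Z := by positivity
    rw [add_mul]
    linarith
  · obtain ⟨L₂, hL₂⟩ : ∃ L₂, L₂ = L - θ := ⟨_, rfl⟩
    obtain ⟨m, hm⟩ : ∃ m, m = ⌊q⌋₊ + 1 := ⟨_, rfl⟩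
    have hm1 : 1 ≤ m := by omega
    obtain ⟨b, hb⟩ : ∃ b, b = (L₂ - R) / m := ⟨_, rfl⟩
    obtain ⟨L₁, hL₁⟩ : ∃ L₁, L₁ = R + m * b := ⟨_, rfl⟩
    have hmb : m * b ≤ L₂ - R := by
      rw [hb]
      exact Nat.mul_div_le _ _
    have hL12 : L₁ ≤ L₂ := by omega
    have hL1 : L₁ ≤ L := by omega
    have hL2 : L ≤ L₁ + (m + θ) := by
      have e1 := Nat.lt_mul_div_succ (L₂ - R) (show 0 < m by omega)
      rw [← hb] at e1
      have e2 : m * (b + 1) = m * b + m := by ring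
      omega
    have hdual : ∀ ω, 0 < p ω →
      (∀ i j, |((Matrix.of (d ω)).transpose)⁻¹ i j| ≤ (c.factorial : ℝ) / (1 / Kd)) ∧
      (∀ (v : Fin c → ℝ) (j : Fin c), v j = ∑ i, (Matrix.of (d ω)) i j *
        ∑ k, ((Matrix.of (d ω)).transpose)⁻¹ i k * v k) ∧
      (∀ k i, ∑ j, ((Matrix.of (d ω)).transpose)⁻¹ k j * (Matrix.of (d ω)) i j =
        if k = i then 1 else 0) := fun ω hω =>
      dual (Matrix.of (d ω)) (by positivity) (hd ω hω) (hdet ω hω)
    obtain ⟨e, he⟩ : ∃ e : Ω → Fin c → Fin c → ℝ,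
      e = fun ω i j => ((Matrix.of (d ω)).transpose)⁻¹ i j := ⟨_, rfl⟩
    have heK : ∀ ω, 0 < p ω → ∀ i j, |e ω i j| ≤ f * Kd := by
      intro ω hω i j
      have e1 := (hdual ω hω).1 i j
      rw [he, hf]
      refine e1.trans (le_of_eq ?_)
      rw [div_div_eq_mul_div, div_one]
    have key := mkl (x := frc R x) (e := e) (d := d) (B := 1) (R := m * b) (m := m) (b := b)
      (kap := kap) hp (by omega) rfl zero_le_one (fun ω _ j => frc_abs R x ω j)
      (fun ω hω v j => by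
        rw [he]
        exact (hdual ω hω).2.1 v j) hd (fun ω hω i j => (heK ω hω i j).trans hkap) g Lam
      (fun ω => (fl R (x ω), W ω)) (by
      intro a ω ω' hω hω' g2 g13 k hk
      simp only [Prod.mk.injEq] at g13
      obtain ⟨g1, g3⟩ := g13
      obtain ⟨t, ht1, ht2⟩ := hl a ω ω' hω hω' g1 g2 g3
      have q1 : ∑ j, e ω k j * ∑ i, t i * d ω i j = t k := by
        have q2 : ∑ j, e ω k j * ∑ i, t i * d ω i j = ∑ i, t i * ∑ j, e ω k j * d ω i j := by
          simp only [Finset.mul_sum]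
          rw [Finset.sum_comm]
          refine Finset.sum_congr rfl fun i _ => Finset.sum_congr rfl fun j _ => ?_
          ring
        rw [q2]
        have q3 : ∀ i, ∑ j, e ω k j * d ω i j = if k = i then 1 else 0 := by
          intro i
          rw [he]
          exact (hdual ω hω).2.2 k i
        rw [Finset.sum_congr rfl fun i _ => by rw [q3 i]]
        rw [Finset.sum_eq_single k]
        · rw [if_pos rfl, mul_one]
        · intro i _ hi
          rw [if_neg (fun h => hi h.symm), mul_zero]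
        · intro h
          exact absurd (Finset.mem_univ k) h
      rw [ht1 k hk] at q1
      have q4 : ∑ j, e ω k j * (frc R x ω j - frc R x ω' j) =
          2 ^ R * ∑ j, e ω k j * (x ω j - x ω' j - ∑ i, t i * d ω i j) := by
        have q5 : ∑ j, e ω k j * (x ω j - x ω' j - ∑ i, t i * d ω i j) =
            ∑ j, e ω k j * (x ω j - x ω' j) - ∑ j, e ω k j * ∑ i, t i * d ω i j := by
          rw [← Finset.sum_sub_distrib]
          refine Finset.sum_congr rfl fun j _ => ?_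
          ring
        rw [q5, q1, sub_zero, Finset.mul_sum]
        refine Finset.sum_congr rfl fun j _ => ?_
        unfold frc
        rw [g1]
        ring
      rw [q4, abs_mul, abs_of_pos (by positivity : (0 : ℝ) < 2 ^ R)]
      have q6 : ∀ j, |e ω k j * (x ω j - x ω' j - ∑ i, t i * d ω i j)| ≤
          f * Kd * (B₀ / 2 ^ L) := by
        intro j
        rw [abs_mul]
        exact mul_le_mul (heK ω hω k j) (ht2 j) (abs_nonneg _) (by positivity)
      have q7 : |∑ j, e ω k j * (x ω j - x ω' j - ∑ i, t i * d ω i j)| ≤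
          c * (f * Kd * (B₀ / 2 ^ L)) := by
        refine (Finset.abs_sum_le_sum_abs _ _).trans ?_
        refine (Finset.sum_le_sum fun j _ => q6 j).trans (le_of_eq ?_)
        rw [Finset.sum_const, Finset.card_univ, Fintype.card_fin, nsmul_eq_mul]
      have q8 : (c : ℝ) * (f * Kd * (B₀ / 2 ^ L)) ≤ 2 ^ θ / 2 ^ L := by
        have r1 : (c : ℝ) * (f * Kd * (B₀ / 2 ^ L)) = (c * (f * Kd) * B₀) / 2 ^ L := by ring
        rw [r1]
        refine div_le_div_of_nonneg_right (le_trans ?_ hθ) (by positivity)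
        have r2 : 0 ≤ (f * Kd) * B₀ := by positivity
        nlinarith
      refine (mul_le_mul_of_nonneg_left (q7.trans q8) (by positivity)).trans ?_
      have r3 : L = R + (L₂ - R) + θ := by omega
      rw [r3, pow_add, pow_add]
      have r4 : (2 : ℝ) ^ R * (2 ^ θ / (2 ^ R * 2 ^ (L₂ - R) * 2 ^ θ)) = 1 / 2 ^ (L₂ - R) := by
        field_simp
      rw [r4]
      exact one_div_le_one_div_of_le (by positivity) (pow_le_pow_right₀ (by norm_num) hmb))
    have e1' : ∀ a, CH p (fun ω => fl (m * b) (frc R x ω))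
        (fun ω => (Lam a ω, (fl R (x ω), W ω))) =
        CH p (fun ω => fl L₁ (x ω)) (fun ω => (fl R (x ω), (Lam a ω, W ω))) := by
      intro a
      rw [hL₁, ← ch_frc hp]
      refine CH_congr hp0 (fun _ _ _ _ h => (Prod.ext_iff.1 h).1)
        (fun _ _ _ _ h => (Prod.ext_iff.1 h).1) ?_ ?_
      · intro ω ω' _ _ hh
        simp only [Prod.mk.injEq] at hh ⊢
        tauto
      · intro ω ω' _ _ hh
        simp only [Prod.mk.injEq] at hh ⊢
        tauto
    rw [ch_frc hp, Finset.sum_congr rfl fun a _ => e1' a, ← hL₁] at key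
    have e1 : CH p (fun ω => fl L₁ (x ω)) (fun ω => (fl R (x ω), W ω)) ≤
        CH p (fun ω => fl L (x ω)) (fun ω => (fl R (x ω), W ω)) := by
      refine CH_mono_left hp0 fun ω ω' _ _ hh => ?_
      exact fl_det hL1 (Prod.ext_iff.1 hh).1
    have e2 : ∀ a, CH p (fun ω => fl L (x ω)) (fun ω => (fl R (x ω), (Lam a ω, W ω))) ≤
        CH p (fun ω => fl L₁ (x ω)) (fun ω => (fl R (x ω), (Lam a ω, W ω))) +
          c * ((m + θ : ℕ) + 2) :=
      fun a => ch_tail hp x _ hL2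
    have e3 := Finset.sum_le_sum fun a (_ : a ∈ (univ : Finset (Fin r))) => e2 a
    rw [Finset.sum_add_distrib, Finset.sum_const, Finset.card_univ, Fintype.card_fin,
      nsmul_eq_mul] at e3
    have hmq : (m : ℝ) ≤ q + 1 := by
      rw [hm]
      push_cast
      linarith [Nat.floor_le hq0]
    have hbq : (b : ℝ) ≤ q := by
      have g1 : (b : ℝ) ≤ ((L₂ - R : ℕ) : ℝ) / (m : ℝ) := by
        rw [hb]
        exact Nat.cast_div_le
      have g2 : ((L₂ - R : ℕ) : ℝ) ≤ (L : ℝ) - R := by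
        rw [← Nat.cast_sub hRL]
        exact_mod_cast (by omega : L₂ - R ≤ L - R)
      have g3 : q < m := by
        rw [hm]
        push_cast
        exact Nat.lt_floor_add_one q
      have g4 : (0 : ℝ) < m := lt_of_le_of_lt hq0 g3
      refine g1.trans ((div_le_div_of_nonneg_right g2 g4.le).trans ?_)
      rw [← hqq, div_le_iff₀ g4]
      exact mul_le_mul_of_nonneg_left g3.le hq0
    have e4 := h1 m b kap
    have e5 : C1 * ((b : ℝ) + m + kap + 1) ≤ C1 * (6 + 2 * Real.log f) * Z := by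
      have g1 : (b : ℝ) + m + kap + 1 ≤ (6 + 2 * Real.log f) * Z := by nlinarith
      calc C1 * ((b : ℝ) + m + kap + 1) ≤ C1 * ((6 + 2 * Real.log f) * Z) :=
            mul_le_mul_of_nonneg_left g1 (by linarith)
        _ = _ := by ring
    have e6 : (r : ℝ) * (c * ((m + θ : ℕ) + 2)) ≤
        r * (c * (8 + 2 * Real.log f + 2 * Real.log (c + 1))) * Z := by
      push_cast
      have g1 : (m : ℝ) + θ + 2 ≤ (8 + 2 * Real.log f + 2 * Real.log (c + 1)) * Z := by nlinarith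
      calc (r : ℝ) * (c * (m + θ + 2)) ≤
          r * (c * ((8 + 2 * Real.log f + 2 * Real.log (c + 1)) * Z)) :=
            mul_le_mul_of_nonneg_left (mul_le_mul_of_nonneg_left g1 hc0) hr0
        _ = _ := by ring
    rw [add_mul]
    linarith

/-- **The same, with directions of size `2 ^ h`.** -/
theorem mkdl (c r : ℕ) : ∃ C : ℝ, 0 ≤ C ∧ ∀ {Ω κ : Type} [Fintype Ω] {p : Ω → ℝ}, IsLaw p →
    ∀ {x : Ω → Fin c → ℝ} {d : Ω → Fin c → Fin c → ℝ} {Kd B₀ : ℝ} {R L : ℕ} (h : ℕ), 1 ≤ Kd →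
    1 ≤ B₀ → R ≤ L → (∀ ω, 0 < p ω → ∀ i j, |d ω i j| ≤ 2 ^ h) →
    (∀ ω, 0 < p ω → 1 / Kd ≤ |(Matrix.of (d ω)).det|) →
    ∀ (g : Fin c → Fin r) {Λ : Fin r → Type} (Lam : ∀ a, Ω → Λ a) (W : Ω → κ),
    (∀ a ω ω', 0 < p ω → 0 < p ω' → fl R (x ω) = fl R (x ω') → Lam a ω = Lam a ω' →
      W ω = W ω' → ∃ t : Fin c → ℝ, (∀ i, g i ≠ a → t i = 0) ∧
        ∀ j, |x ω j - x ω' j - ∑ i, t i * d ω i j| ≤ B₀ / 2 ^ L) →
    ∑ a, CH p (fun ω => fl L (x ω)) (fun ω => (fl R (x ω), (Lam a ω, W ω))) ≤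
      CH p (fun ω => fl L (x ω)) (fun ω => (fl R (x ω), W ω)) +
        C * (√((L : ℝ) - R) + 1 + h + Real.log Kd + Real.log B₀) := by
  obtain ⟨C, hC, key⟩ := mkdl1 c r
  refine ⟨C * (1 + c), by positivity, ?_⟩
  intro Ω κ _ p hp x d Kd B₀ R L h hK hB hRL hd hdet g Λ Lam W hl
  have hc0 : (0 : ℝ) ≤ c := Nat.cast_nonneg c
  have hh0 : (0 : ℝ) ≤ h := Nat.cast_nonneg h
  have lK := Real.log_nonneg hK
  have lB := Real.log_nonneg hB
  have h2 : (0 : ℝ) < 2 ^ h := by positivity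
  have hP : (1 : ℝ) ≤ (2 ^ h) ^ c := one_le_pow₀ (one_le_pow₀ (by norm_num))
  have k1 := key hp (x := x) (d := fun ω i j => d ω i j / 2 ^ h) (Kd := Kd * (2 ^ h) ^ c)
    (B₀ := B₀) (R := R) (L := L) (one_le_mul_of_one_le_of_one_le hK hP) hB hRL
    (fun ω hω i j => by
      rw [abs_div, abs_of_pos h2, div_le_one h2]
      exact hd ω hω i j)
    (fun ω hω => by
      have e1 : (Matrix.of (fun i j => d ω i j / 2 ^ h) : Matrix (Fin c) (Fin c) ℝ) =
          (1 / (2 : ℝ) ^ h) • Matrix.of (d ω) := by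
        ext i j
        simp only [Matrix.of_apply, Matrix.smul_apply, smul_eq_mul]
        ring
      rw [e1, Matrix.det_smul, Fintype.card_fin, abs_mul, abs_pow,
        abs_of_pos (by positivity : (0 : ℝ) < 1 / 2 ^ h)]
      have e2 := hdet ω hω
      have e3 : 1 / (Kd * (2 ^ h) ^ c) = (1 / (2 : ℝ) ^ h) ^ c * (1 / Kd) := by
        rw [one_div_pow]
        field_simp
      rw [e3]
      exact mul_le_mul_of_nonneg_left e2 (by positivity))
    g Lam W (by
      intro a ω ω' hω hω' g1 g2 g3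
      obtain ⟨t, ht1, ht2⟩ := hl a ω ω' hω hω' g1 g2 g3
      refine ⟨fun i => t i * 2 ^ h, fun i hi => ?_, fun j => ?_⟩
      · simp only
        rw [ht1 i hi, zero_mul]
      · have e4 : ∑ i, t i * 2 ^ h * (d ω i j / 2 ^ h) = ∑ i, t i * d ω i j :=
          Finset.sum_congr rfl fun i _ => by field_simp
        simp only
        rw [e4]
        exact ht2 j)
  refine k1.trans ?_
  rw [Real.log_mul (by linarith) (by positivity), Real.log_pow, Real.log_pow]
  have hl21 : Real.log 2 ≤ 1 := by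
    have := Real.log_two_lt_d9
    linarith
  have hl0 : 0 ≤ Real.log 2 := Real.log_nonneg (by norm_num)
  have q0 := Real.sqrt_nonneg ((L : ℝ) - R)
  have e5 : √((L : ℝ) - R) + 1 + (Real.log Kd + c * (h * Real.log 2)) + Real.log B₀ ≤
      (1 + c) * (√((L : ℝ) - R) + 1 + h + Real.log Kd + Real.log B₀) := by
    have e6 : (c : ℝ) * (h * Real.log 2) ≤ c * h :=
      mul_le_mul_of_nonneg_left (by nlinarith) hc0
    have e7 : 0 ≤ (c : ℝ) * (√((L : ℝ) - R) + 1 + Real.log Kd + Real.log B₀) := by positivity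
    nlinarith
  have e8 := mul_le_mul_of_nonneg_left e5 hC
  linarith

end Pool.SPN
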