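import Pool.Agent.H67.SPN.Mkdl

/-!
# The rows of the last coordinate, given all the digits of the base

`mk3l`: three coordinates, two labels with affine leaves, between two scales. `nf4b`: the entropy of
the first `R` digits of `(y, z, v, N)` is at most `3 R log 2` plus the entropy of the first `R`
digits of `N` given ALL the digits of the base; the leaves of `v` are known to `L ≥ R` digits and
the leaves of `N` only to `R` digits.
-/

set_option autoImplicit false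

namespace Pool.SPN

open Finset Real
open Pool.Agent.H49.Ent Pool.Agent.H32.Dense Pool.STK Pool.MKE Pool.MKV

theorem bas3_abs_h (bz : Fin 2) (s1 s2 : Fin 2 → ℝ) (h : ℕ) (h1 : ∀ b, |s1 b| ≤ 2 ^ h)
    (h2 : ∀ b, |s2 b| ≤ 2 ^ h) (i j : Fin 3) : |bas3 bz s1 s2 i j| ≤ 2 ^ h := by
  have hP : (1 : ℝ) ≤ 2 ^ h := one_le_pow₀ (by norm_num)
  have hP0 : (0 : ℝ) ≤ 2 ^ h := by linarith
  unfold bas3
  fin_cases bz <;> fin_cases i <;> fin_cases j <;> simp [h1, h2, hP, hP0]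

/-- **Three coordinates, two labels.** -/
theorem mk3l : ∃ C : ℝ, 0 ≤ C ∧ ∀ {Ω κ α β : Type} [Fintype Ω] {p : Ω → ℝ}, IsLaw p →
    ∀ {x : Ω → Fin 3 → ℝ} {K1 : Ω → α} {K2 : Ω → β} {W : Ω → κ} {s1 s2 : Ω → Fin 2 → ℝ}
    {Kd B₀ e1 e2 : ℝ} {R L : ℕ} (h : ℕ) (bz : Fin 2), 1 ≤ Kd → 1 ≤ B₀ → R ≤ L →
    (∀ ω, 0 < p ω → ∀ b, |s1 ω b| ≤ 2 ^ h) → (∀ ω, 0 < p ω → ∀ b, |s2 ω b| ≤ 2 ^ h) →
    (∀ ω, 0 < p ω → 1 / Kd ≤ |s2 ω bz - s1 ω bz|) →
    (∀ ω ω', 0 < p ω → 0 < p ω' → fl R (x ω) = fl R (x ω') → K1 ω = K1 ω' → W ω = W ω' →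
      |x ω 2 - x ω' 2 - (s1 ω 0 * (x ω 0 - x ω' 0) + s1 ω 1 * (x ω 1 - x ω' 1))| ≤ B₀ / 2 ^ L) →
    (∀ ω ω', 0 < p ω → 0 < p ω' → fl R (x ω) = fl R (x ω') → K2 ω = K2 ω' → W ω = W ω' →
      |x ω 2 - x ω' 2 - (s2 ω 0 * (x ω 0 - x ω' 0) + s2 ω 1 * (x ω 1 - x ω' 1))| ≤ B₀ / 2 ^ L) →
    2 * (((L : ℝ) - R) * Real.log 2) - e1 ≤
      CH p (fun ω => fl L ![x ω 0, x ω 1]) (fun ω => (fl R (x ω), (K1 ω, W ω))) →
    2 * (((L : ℝ) - R) * Real.log 2) - e2 ≤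
      CH p (fun ω => fl L ![x ω 0, x ω 1]) (fun ω => (fl R (x ω), (K2 ω, W ω))) →
    3 * (((L : ℝ) - R) * Real.log 2) - (e1 + e2 +
      C * (√((L : ℝ) - R) + 1 + h + Real.log Kd + Real.log B₀)) ≤
      CH p (fun ω => fl L (x ω)) (fun ω => (fl R (x ω), W ω)) := by
  obtain ⟨C, hC, key0⟩ := mkdl 3 2
  refine ⟨2 * C + 3, by positivity, ?_⟩
  intro Ω κ α β _ p hp x K1 K2 W s1 s2 Kd B₀ e1 e2 R L h bz hK hB hRL hs1 hs2 hdet hl1 hl2 hf1 hf2
  have hp0 := hp.nonneg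
  have hLR : (0 : ℝ) ≤ (L : ℝ) - R := by
    have : (R : ℝ) ≤ L := by exact_mod_cast hRL
    linarith
  have hPh : (1 : ℝ) ≤ 2 ^ h := one_le_pow₀ (by norm_num)
  have hPh0 : (0 : ℝ) < 2 ^ h := by linarith
  have hh0 : (0 : ℝ) ≤ h := Nat.cast_nonneg h
  -- the other coordinate
  obtain ⟨oc, hoc⟩ : ∃ oc : Ω → ℤ, oc = fun ω => ⌊(2 : ℝ) ^ L * (if bz = 0 then x ω 1 else x ω 0)⌋ :=
    ⟨_, rfl⟩
  obtain ⟨lam, hlam⟩ : ∃ lam : Fin 2 → Ω → α ⊕ (β × ℤ), lam = fun a ω =>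
    if a = 0 then Sum.inl (K1 ω) else Sum.inr (K2 ω, oc ω) := ⟨_, rfl⟩
  have hlam0 : ∀ ω, lam 0 ω = Sum.inl (K1 ω) := fun ω => by rw [hlam]; rfl
  have hlam1 : ∀ ω, lam 1 ω = Sum.inr (K2 ω, oc ω) := fun ω => by rw [hlam]; rfl
  have key := key0 hp (x := x) (d := fun ω => bas3 bz (s1 ω) (s2 ω)) (Kd := Kd) (B₀ := B₀ + 2 ^ h)
    (R := R) (L := L) h hK (by linarith) hRL
    (fun ω hω i j => bas3_abs_h bz (s1 ω) (s2 ω) h (hs1 ω hω) (hs2 ω hω) i j)
    (fun ω hω => by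
      rw [bas3_det]
      exact hdet ω hω)
    ![(0 : Fin 2), 0, 1] (Λ := fun _ => α ⊕ (β × ℤ))
    lam W (by
    intro a ω ω' hω hω' g1 g2 g3
    by_cases ha : a = 0
    · subst ha
      rw [hlam0, hlam0] at g2
      have g4 := hl1 ω ω' hω hω' g1 (Sum.inl.inj g2) g3
      refine ⟨![x ω 0 - x ω' 0, x ω 1 - x ω' 1, 0], ?_, ?_⟩
      · intro i hi
        fin_cases i
        · exact absurd rfl hi
        · exact absurd rfl hi
        · rfl
      · intro j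
        rw [Fin.sum_univ_three]
        have hpos : (0 : ℝ) ≤ (B₀ + 2 ^ h) / 2 ^ L := by positivity
        fin_cases j
        · simp [bas3]
          exact hpos
        · simp [bas3]
          exact hpos
        · simp [bas3]
          have q1 : x ω 2 - x ω' 2 - ((x ω 0 - x ω' 0) * s1 ω 0 + (x ω 1 - x ω' 1) * s1 ω 1) =
            x ω 2 - x ω' 2 - (s1 ω 0 * (x ω 0 - x ω' 0) + s1 ω 1 * (x ω 1 - x ω' 1)) := by ring
          rw [q1]
          exact g4.trans (div_le_div_of_nonneg_right (by linarith) (by positivity))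
    · have ha1 : a = 1 := by omega
      subst ha1
      rw [hlam1, hlam1] at g2
      have g5 := Prod.ext_iff.1 (Sum.inr.inj g2)
      have g4 := hl2 ω ω' hω hω' g1 g5.1 g3
      have g6 := g5.2
      simp only at g6
      rw [hoc] at g6
      have hpos : (0 : ℝ) ≤ (B₀ + 2 ^ h) / 2 ^ L := by positivity
      have q0 := floor_same g6
      rw [← mul_sub, abs_mul, abs_of_pos (by positivity : (0 : ℝ) < 2 ^ L)] at q0
      have q1 : |(if bz = 0 then x ω 1 else x ω 0) - (if bz = 0 then x ω' 1 else x ω' 0)| ≤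
          1 / 2 ^ L := by
        rw [le_div_iff₀ (by positivity), mul_comm]
        exact q0
      have q2 : (1 : ℝ) / 2 ^ L ≤ (B₀ + 2 ^ h) / 2 ^ L :=
        div_le_div_of_nonneg_right (by linarith) (by positivity)
      have hs := hs2 ω hω
      refine ⟨![0, 0, if bz = 0 then x ω 0 - x ω' 0 else x ω 1 - x ω' 1], ?_, ?_⟩
      · intro i hi
        fin_cases i
        · rfl
        · rfl
        · exact absurd rfl hi
      · intro j
        rw [Fin.sum_univ_three]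
        have q3 : ∀ u w t : ℝ, |w| ≤ 1 / 2 ^ L → |t| ≤ 2 ^ h → |u - t * w| ≤ B₀ / 2 ^ L →
            |u| ≤ (B₀ + 2 ^ h) / 2 ^ L := by
          intro u w t hw ht hu
          have r1 : u = (u - t * w) + t * w := by ring
          rw [r1]
          refine (abs_add_le _ _).trans ?_
          rw [add_div]
          refine add_le_add hu ?_
          rw [abs_mul]
          calc |t| * |w| ≤ 2 ^ h * (1 / 2 ^ L) := mul_le_mul ht hw (abs_nonneg _) hPh0.le
            _ = _ := by ring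
        fin_cases bz
        · simp only [Fin.zero_eta, if_true] at q1
          fin_cases j
          · simp [bas3]
            exact hpos
          · simp [bas3]
            refine q1.trans ?_
            exact q2
          · simp [bas3]
            refine q3 _ (x ω 1 - x ω' 1) (s2 ω 1) q1 (hs 1) ?_
            have r1 : x ω 2 - x ω' 2 - (x ω 0 - x ω' 0) * s2 ω 0 - s2 ω 1 * (x ω 1 - x ω' 1) =
              x ω 2 - x ω' 2 - (s2 ω 0 * (x ω 0 - x ω' 0) + s2 ω 1 * (x ω 1 - x ω' 1)) := by ring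
            rw [r1]
            exact g4
        · simp only [Fin.mk_one, one_ne_zero, if_false] at q1
          fin_cases j
          · simp [bas3]
            exact q1.trans q2
          · simp [bas3]
            exact hpos
          · simp [bas3]
            refine q3 _ (x ω 0 - x ω' 0) (s2 ω 0) q1 (hs 0) ?_
            have r1 : x ω 2 - x ω' 2 - (x ω 1 - x ω' 1) * s2 ω 1 - s2 ω 0 * (x ω 0 - x ω' 0) =
              x ω 2 - x ω' 2 - (s2 ω 0 * (x ω 0 - x ω' 0) + s2 ω 1 * (x ω 1 - x ω' 1)) := by ring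
            rw [r1]
            exact g4)
  rw [Fin.sum_univ_two] at key
  -- the first label
  have f1 : 2 * (((L : ℝ) - R) * Real.log 2) - e1 ≤ CH p (fun ω => fl L (x ω)) (fun ω =>
      (fl R (x ω), (lam 0 ω, W ω))) := by
    refine hf1.trans ?_
    have g1 : CH p (fun ω => fl L ![x ω 0, x ω 1]) (fun ω => (fl R (x ω), (K1 ω, W ω))) ≤
        CH p (fun ω => fl L (x ω)) (fun ω => (fl R (x ω), (K1 ω, W ω))) := by
      refine CH_mono_left hp0 fun ω ω' _ _ hh => ?_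
      have h1 : fl L (x ω) = fl L (x ω') := (Prod.ext_iff.1 hh).1
      refine funext fun b => ?_
      fin_cases b
      · exact congrFun h1 0
      · exact congrFun h1 1
    refine g1.trans (CH_mono_cond hp0 fun ω ω' _ _ hh => ?_)
    simp only [Prod.mk.injEq] at hh ⊢
    rw [hlam0, hlam0, hh.2.1]
    exact ⟨hh.1, rfl, hh.2.2⟩
  -- the second label
  have f2 : ((L : ℝ) - R) * Real.log 2 - 3 - e2 ≤ CH p (fun ω => fl L (x ω)) (fun ω =>
      (fl R (x ω), (lam 1 ω, W ω))) := by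
    have g1 := CH_le_add hp0 (fun ω => fl L ![x ω 0, x ω 1]) oc (fun ω => (fl R (x ω), (K2 ω, W ω)))
    have g2 : CH p oc (fun ω => (fl R (x ω), (K2 ω, W ω))) ≤ ((L : ℝ) - R) * Real.log 2 + 3 := by
      rw [hoc]
      refine ch_one hp (fun ω => if bz = 0 then x ω 1 else x ω 0) _ hRL ?_
      intro ω ω' _ _ hh
      have h1 : fl R (x ω) = fl R (x ω') := (Prod.ext_iff.1 hh).1
      have h2 : ∀ j, |x ω j - x ω' j| ≤ 2 / 2 ^ R := by
        intro j
        have h3 := fl_same h1 j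
        rw [le_div_iff₀ (by positivity), mul_comm]
        linarith
      by_cases hb : bz = 0
      · simp only [hb, if_true]
        exact h2 1
      · simp only [hb, if_false]
        exact h2 0
    have g3 : CH p (fun ω => fl L ![x ω 0, x ω 1]) (fun ω => (oc ω, (fl R (x ω), (K2 ω, W ω)))) ≤
        CH p (fun ω => fl L (x ω)) (fun ω => (oc ω, (fl R (x ω), (K2 ω, W ω)))) := by
      refine CH_mono_left hp0 fun ω ω' _ _ hh => ?_
      have h1 : fl L (x ω) = fl L (x ω') := (Prod.ext_iff.1 hh).1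
      refine funext fun b => ?_
      fin_cases b
      · exact congrFun h1 0
      · exact congrFun h1 1
    have g4 : CH p (fun ω => fl L (x ω)) (fun ω => (oc ω, (fl R (x ω), (K2 ω, W ω)))) ≤
        CH p (fun ω => fl L (x ω)) (fun ω => (fl R (x ω), (lam 1 ω, W ω))) := by
      refine CH_mono_cond hp0 fun ω ω' _ _ hh => ?_
      simp only [Prod.mk.injEq] at hh ⊢
      rw [hlam1, hlam1, hh.1, hh.2.2.1]
      exact ⟨hh.2.1, rfl, hh.2.2.2⟩
    linarith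
  have lK := Real.log_nonneg hK
  have lB := Real.log_nonneg hB
  have lB' : Real.log (B₀ + 2 ^ h) ≤ 1 + h + Real.log B₀ := by
    have h4 : Real.log (B₀ + 2 ^ h) ≤ Real.log (2 * 2 ^ h * B₀) :=
      Real.log_le_log (by linarith) (by nlinarith)
    rw [Real.log_mul (by positivity) (by linarith), Real.log_mul (by norm_num) (by positivity),
      Real.log_pow] at h4
    have h5 := Real.log_two_lt_d9
    have h6 : (h : ℝ) * Real.log 2 ≤ h * 1 := mul_le_mul_of_nonneg_left (by linarith) hh0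
    linarith
  have q0 := Real.sqrt_nonneg ((L : ℝ) - R)
  obtain ⟨Z, hZ⟩ : ∃ Z, Z = √((L : ℝ) - R) + 1 + h + Real.log Kd + Real.log B₀ := ⟨_, rfl⟩
  have hZ1 : 1 ≤ Z := by linarith
  have t1 : √((L : ℝ) - R) + 1 + h + Real.log Kd + Real.log (B₀ + 2 ^ h) ≤ 2 * Z := by linarith
  have t2 := mul_le_mul_of_nonneg_left t1 hC
  rw [← hZ]
  have t3 : (2 * C + 3) * Z = C * (2 * Z) + 3 * Z := by ring
  linarith

/-- The first digits of two coordinates. -/
theorem ch_base {Ω κ : Type} [Fintype Ω] {p : Ω → ℝ} (hp : IsLaw p) {X : Ω → Fin 2 → ℝ}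
    (W : Ω → κ) {R : ℕ} (h : ℕ) (hx : ∀ ω, 0 < p ω → ∀ j, |X ω j| ≤ 2 ^ h) :
    CH p (fun ω => fl R (X ω)) W ≤ 2 * (R * Real.log 2) + (8 + 2 * h) := by
  have hPh : (1 : ℝ) ≤ 2 ^ h := one_le_pow₀ (by norm_num)
  have hPR : (1 : ℝ) ≤ 2 ^ R := one_le_pow₀ (by norm_num)
  have hh0 : (0 : ℝ) ≤ h := Nat.cast_nonneg h
  have h1 := CH_vecc (L := 2 ^ R * (2 * 2 ^ h) + 1) hp (fun ω => fl R (X ω)) W (by
    intro ω ω' hω hω' _ j
    refine floor_two ?_
    rw [← mul_sub, abs_mul, abs_of_pos (by positivity)]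
    refine mul_le_mul_of_nonneg_left ?_ (by positivity)
    refine (abs_sub _ _).trans ?_
    have := hx ω hω j
    have := hx ω' hω' j
    linarith)
  have h3 : Real.log (2 * (2 ^ R * (2 * 2 ^ h) + 1) + 1) ≤ R * Real.log 2 + (4 + h) := by
    have h4 : Real.log (2 * ((2 : ℝ) ^ R * (2 * 2 ^ h) + 1) + 1) ≤
        Real.log (8 * 2 ^ R * 2 ^ h) := by
      refine Real.log_le_log (by positivity) ?_
      have : 1 ≤ (2 : ℝ) ^ R * 2 ^ h := one_le_mul_of_one_le_of_one_le hPR hPh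
      nlinarith
    rw [Real.log_mul (by positivity) (by positivity), Real.log_mul (by norm_num) (by positivity),
      Real.log_pow, Real.log_pow] at h4
    have h5 := log_small (x := 8) 3 (by norm_num) (by norm_num)
    have h6 : (h : ℝ) * Real.log 2 ≤ h * 1 := by
      refine mul_le_mul_of_nonneg_left ?_ hh0
      have := Real.log_two_lt_d9
      linarith
    push_cast at h5
    linarith
  push_cast at h1
  linarith

/-- The digits in a leaf, given the digits of the base. -/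
theorem ch_in {Ω κ : Type} [Fintype Ω] {p : Ω → ℝ} (hp : IsLaw p) {y z u : Ω → ℝ}
    (V : Ω → κ) {s : Ω → Fin 2 → ℝ} {B₀ : ℝ} {L : ℕ} (h : ℕ) (hB : 1 ≤ B₀)
    (hs : ∀ ω, 0 < p ω → ∀ b, |s ω b| ≤ 2 ^ h)
    (hy : ∀ ω ω', 0 < p ω → 0 < p ω' → V ω = V ω' → |y ω - y ω'| ≤ 1 / 2 ^ L)
    (hz : ∀ ω ω', 0 < p ω → 0 < p ω' → V ω = V ω' → |z ω - z ω'| ≤ 1 / 2 ^ L)
    (hv : ∀ ω ω', 0 < p ω → 0 < p ω' → V ω = V ω' →
      |u ω - u ω' - (s ω 0 * (y ω - y ω') + s ω 1 * (z ω - z ω'))| ≤ B₀ / 2 ^ L) :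
    CH p (fun ω => ⌊(2 : ℝ) ^ L * u ω⌋) V ≤ 5 + h + Real.log B₀ := by
  have hPh : (1 : ℝ) ≤ 2 ^ h := one_le_pow₀ (by norm_num)
  have hh0 : (0 : ℝ) ≤ h := Nat.cast_nonneg h
  have h1 := CH_vecc (L := (B₀ + 2 * 2 ^ h) + 1) hp (fun ω (_ : Fin 1) => ⌊(2 : ℝ) ^ L * u ω⌋) V (by
    intro ω ω' hω hω' hh _
    refine floor_two ?_
    rw [← mul_sub, abs_mul, abs_of_pos (by positivity)]
    have g1 := hy ω ω' hω hω' hh
    have g2 := hz ω ω' hω hω' hh
    have g3 := hv ω ω' hω hω' hh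
    have g4 := hs ω hω 0
    have g5 := hs ω hω 1
    have r1 : |s ω 0 * (y ω - y ω')| ≤ 2 ^ h / 2 ^ L := by
      rw [abs_mul]
      calc |s ω 0| * |y ω - y ω'| ≤ 2 ^ h * (1 / 2 ^ L) :=
            mul_le_mul g4 g1 (abs_nonneg _) (by positivity)
        _ = _ := by ring
    have r2 : |s ω 1 * (z ω - z ω')| ≤ 2 ^ h / 2 ^ L := by
      rw [abs_mul]
      calc |s ω 1| * |z ω - z ω'| ≤ 2 ^ h * (1 / 2 ^ L) :=
            mul_le_mul g5 g2 (abs_nonneg _) (by positivity)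
        _ = _ := by ring
    have r3 : |u ω - u ω'| ≤ (B₀ + 2 * 2 ^ h) / 2 ^ L := by
      have r4 : u ω - u ω' = (u ω - u ω' - (s ω 0 * (y ω - y ω') + s ω 1 * (z ω - z ω'))) +
        (s ω 0 * (y ω - y ω') + s ω 1 * (z ω - z ω')) := by ring
      rw [r4]
      refine (abs_add_le _ _).trans ?_
      have r5 := abs_add_le (s ω 0 * (y ω - y ω')) (s ω 1 * (z ω - z ω'))
      have r6 : (B₀ + 2 * 2 ^ h) / 2 ^ L = B₀ / 2 ^ L + (2 ^ h / 2 ^ L + 2 ^ h / 2 ^ L) := by ring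
      rw [r6]
      linarith
    refine (mul_le_mul_of_nonneg_left r3 (by positivity)).trans (le_of_eq ?_)
    field_simp)
  have h2 : CH p (fun ω => ⌊(2 : ℝ) ^ L * u ω⌋) V ≤
      CH p (fun ω (_ : Fin 1) => ⌊(2 : ℝ) ^ L * u ω⌋) V := by
    refine CH_mono_left hp.nonneg fun ω ω' _ _ hh => ?_
    exact congrFun (Prod.ext_iff.1 hh).1 0
  have h3 : Real.log (2 * ((B₀ + 2 * 2 ^ h) + 1) + 1) ≤ 5 + h + Real.log B₀ := by
    have h4 : Real.log (2 * ((B₀ + 2 * 2 ^ h) + 1) + 1) ≤ Real.log (16 * 2 ^ h * B₀) := by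
      refine Real.log_le_log (by positivity) ?_
      have : B₀ + 2 ^ h ≤ 1 + 2 ^ h * B₀ := by nlinarith
      have : 1 ≤ 2 ^ h * B₀ := one_le_mul_of_one_le_of_one_le hPh hB
      nlinarith
    rw [Real.log_mul (by positivity) (by linarith), Real.log_mul (by norm_num) (by positivity),
      Real.log_pow] at h4
    have h5 : Real.log 16 ≤ 4 := by
      have := log_small (x := 16) 4 (by norm_num) (by norm_num)
      push_cast at this
      exact this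
    have h6 : (h : ℝ) * Real.log 2 ≤ h * 1 := by
      refine mul_le_mul_of_nonneg_left ?_ hh0
      have := Real.log_two_lt_d9
      linarith
    linarith
  push_cast at h1
  linarith [h1.trans (le_of_eq (one_mul _))]

/-- **The rows of `N`, given all the digits of the base.** -/
theorem nf4b : ∃ C : ℝ, 0 ≤ C ∧ ∀ {Ω α β δ κ : Type} [Fintype Ω] {p : Ω → ℝ}, IsLaw p →
    ∀ {x : Ω → Fin 4 → ℝ} {A : Ω → α} {B : Ω → β} {V : Ω → δ} {W : Ω → κ}
    {s1 s2 n1 n2 : Ω → Fin 2 → ℝ} {B₀ Kd e1 e2 e3 Lz mu h' : ℝ} {R L : ℕ} (h : ℕ) (bz : Fin 2),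
    R ≤ L → 1 ≤ B₀ → 1 ≤ Kd → (∀ ω, 0 < p ω → ∀ j, |x ω j| ≤ 2 ^ h) →
    (∀ ω, 0 < p ω → ∀ b, |s1 ω b| ≤ 2 ^ h) → (∀ ω, 0 < p ω → ∀ b, |s2 ω b| ≤ 2 ^ h) →
    (∀ ω, 0 < p ω → ∀ b, |n1 ω b| ≤ 2 ^ h) → (∀ ω, 0 < p ω → ∀ b, |n2 ω b| ≤ 2 ^ h) →
    (∀ ω, 0 < p ω → 1 / Kd ≤ |s2 ω bz - s1 ω bz|) →
    (∀ ω ω', 0 < p ω → 0 < p ω' → A ω = A ω' → W ω = W ω' →
      |x ω 2 - x ω' 2 - (s1 ω 0 * (x ω 0 - x ω' 0) + s1 ω 1 * (x ω 1 - x ω' 1))| ≤ B₀ / 2 ^ L) →
    (∀ ω ω', 0 < p ω → 0 < p ω' → B ω = B ω' → W ω = W ω' →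
      |x ω 2 - x ω' 2 - (s2 ω 0 * (x ω 0 - x ω' 0) + s2 ω 1 * (x ω 1 - x ω' 1))| ≤ B₀ / 2 ^ L) →
    (∀ ω ω', 0 < p ω → 0 < p ω' → A ω = A ω' → W ω = W ω' →
      |x ω 3 - x ω' 3 - (n1 ω 0 * (x ω 0 - x ω' 0) + n1 ω 1 * (x ω 1 - x ω' 1))| ≤ B₀ / 2 ^ R) →
    (∀ ω ω', 0 < p ω → 0 < p ω' → B ω = B ω' → W ω = W ω' →
      |x ω 3 - x ω' 3 - (n2 ω 0 * (x ω 0 - x ω' 0) + n2 ω 1 * (x ω 1 - x ω' 1))| ≤ B₀ / 2 ^ R) →
    Det p (fun ω => (V ω, W ω)) (fun ω => fl L ![x ω 0, x ω 1, x ω 2]) →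
    2 * (L * Real.log 2) - e1 ≤ CH p (fun ω => fl L ![x ω 0, x ω 1]) (fun ω => (A ω, W ω)) →
    2 * (L * Real.log 2) - e2 ≤ CH p (fun ω => fl L ![x ω 0, x ω 1]) (fun ω => (B ω, W ω)) →
    Lz - mu - e3 ≤ CH p V (fun ω => (A ω, W ω)) → CH p V W ≤ Lz + h' →
    CH p (fun ω => fl R (x ω)) W ≤
      CH p (fun ω => ⌊(2 : ℝ) ^ R * x ω 3⌋) (fun ω => (V ω, W ω)) + 3 * (R * Real.log 2) +
        (e1 + e2 + e3 + h' + (mu - L * Real.log 2) +
          C * (√((L : ℝ) - R) + 1 + h + Real.log Kd + Real.log B₀)) := by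
  obtain ⟨C, hC, key0⟩ := mk3l
  refine ⟨C + 100, by positivity, ?_⟩
  intro Ω α β δ κ _ p hp x A B V W s1 s2 n1 n2 B₀ Kd e1 e2 e3 Lz mu h' R L h bz hRL hB hK hx hs1 hs2
    hn1 hn2 hd hv1 hv2 hN1 hN2 hV h1 h2 h3 hc
  have hp0 := hp.nonneg
  have hPh : (1 : ℝ) ≤ 2 ^ h := one_le_pow₀ (by norm_num)
  have hh0 : (0 : ℝ) ≤ h := Nat.cast_nonneg h
  have lK := Real.log_nonneg hK
  have lB := Real.log_nonneg hB
  have hLR2 : B₀ / 2 ^ L ≤ B₀ / 2 ^ R :=
    div_le_div_of_nonneg_left (by linarith) (by positivity) (pow_le_pow_right₀ (by norm_num) hRL)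
  -- the first digits in a leaf
  have leaf : ∀ {γ : Type} (K : Ω → γ) (s n : Ω → Fin 2 → ℝ),
      (∀ ω, 0 < p ω → ∀ b, |s ω b| ≤ 2 ^ h) → (∀ ω, 0 < p ω → ∀ b, |n ω b| ≤ 2 ^ h) →
      (∀ ω ω', 0 < p ω → 0 < p ω' → K ω = K ω' → W ω = W ω' →
        |x ω 2 - x ω' 2 - (s ω 0 * (x ω 0 - x ω' 0) + s ω 1 * (x ω 1 - x ω' 1))| ≤ B₀ / 2 ^ L) →
      (∀ ω ω', 0 < p ω → 0 < p ω' → K ω = K ω' → W ω = W ω' →
        |x ω 3 - x ω' 3 - (n ω 0 * (x ω 0 - x ω' 0) + n ω 1 * (x ω 1 - x ω' 1))| ≤ B₀ / 2 ^ R) →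
      CH p (fun ω => fl R (x ω)) (fun ω => (K ω, W ω)) ≤
        2 * (R * Real.log 2) + (18 + 4 * h + 2 * Real.log B₀) := by
    intro γ K s n hs hn hv hN
    have g1 := CH_le_add hp0 (fun ω => fl R (x ω)) (fun ω => fl R ![x ω 0, x ω 1])
      (fun ω => (K ω, W ω))
    have g2 := ch_base hp (X := fun ω => ![x ω 0, x ω 1]) (fun ω => (K ω, W ω)) (R := R) h (by
      intro ω hω j
      fin_cases j
      · exact hx ω hω 0
      · exact hx ω hω 1)
    have hy : ∀ ω ω', (fl R ![x ω 0, x ω 1], (K ω, W ω)) = (fl R ![x ω' 0, x ω' 1], (K ω', W ω')) →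
        |x ω 0 - x ω' 0| ≤ 1 / 2 ^ R ∧ |x ω 1 - x ω' 1| ≤ 1 / 2 ^ R := by
      intro ω ω' hh
      have e := (Prod.ext_iff.1 hh).1
      have a0 := fl_same e 0
      have a1 := fl_same e 1
      simp only [Matrix.cons_val_zero, Matrix.cons_val_one] at a0 a1
      constructor <;> rw [le_div_iff₀ (by positivity), mul_comm]
      · exact a0
      · exact a1
    have g3 := ch_in hp (y := fun ω => x ω 0) (z := fun ω => x ω 1) (u := fun ω => x ω 2)
      (fun ω => (fl R ![x ω 0, x ω 1], (K ω, W ω))) (s := s) (L := R) h hB hs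
      (fun ω ω' _ _ hh => (hy ω ω' hh).1) (fun ω ω' _ _ hh => (hy ω ω' hh).2)
      (fun ω ω' hω hω' hh => by
        simp only [Prod.mk.injEq] at hh
        exact (hv ω ω' hω hω' hh.2.1 hh.2.2).trans hLR2)
    have g4 := ch_in hp (y := fun ω => x ω 0) (z := fun ω => x ω 1) (u := fun ω => x ω 3)
      (fun ω => (fl R ![x ω 0, x ω 1], (K ω, W ω))) (s := n) (L := R) h hB hn
      (fun ω ω' _ _ hh => (hy ω ω' hh).1) (fun ω ω' _ _ hh => (hy ω ω' hh).2)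
      (fun ω ω' hω hω' hh => by
        simp only [Prod.mk.injEq] at hh
        exact hN ω ω' hω hω' hh.2.1 hh.2.2)
    have g5 : CH p (fun ω => fl R (x ω)) (fun ω => (fl R ![x ω 0, x ω 1], (K ω, W ω))) ≤
        CH p (fun ω => (⌊(2 : ℝ) ^ R * x ω 2⌋, ⌊(2 : ℝ) ^ R * x ω 3⌋))
          (fun ω => (fl R ![x ω 0, x ω 1], (K ω, W ω))) := by
      refine CH_mono_left hp0 fun ω ω' _ _ hh => ?_
      simp only [Prod.mk.injEq] at hh
      obtain ⟨⟨q2, q3⟩, q1, -⟩ := hh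
      refine funext fun j => ?_
      fin_cases j
      · exact congrFun q1 0
      · exact congrFun q1 1
      · exact q2
      · exact q3
    have g6 := CH_subadd hp0 (fun ω => ⌊(2 : ℝ) ^ R * x ω 2⌋) (fun ω => ⌊(2 : ℝ) ^ R * x ω 3⌋)
      (fun ω => (fl R ![x ω 0, x ω 1], (K ω, W ω)))
    linarith
  -- the three coordinates
  obtain ⟨x3, hx3⟩ : ∃ x3 : Ω → Fin 3 → ℝ, x3 = fun ω => ![x ω 0, x ω 1, x ω 2] := ⟨_, rfl⟩
  obtain ⟨W', hW'⟩ : ∃ W' : Ω → ℤ × κ, W' = fun ω => (⌊(2 : ℝ) ^ R * x ω 3⌋, W ω) := ⟨_, rfl⟩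
  have x30 : ∀ ω, x3 ω 0 = x ω 0 := fun ω => by rw [hx3]; rfl
  have x31 : ∀ ω, x3 ω 1 = x ω 1 := fun ω => by rw [hx3]; rfl
  have x32 : ∀ ω, x3 ω 2 = x ω 2 := fun ω => by rw [hx3]; rfl
  -- conditions on the digits of `x`
  have cx : ∀ ω ω', fl R (x3 ω) = fl R (x3 ω') → W' ω = W' ω' → fl R (x ω) = fl R (x ω') := by
    intro ω ω' q1 q2
    rw [hW'] at q2
    simp only [Prod.mk.injEq] at q2
    rw [hx3] at q1
    refine funext fun j => ?_
    fin_cases j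
    · exact congrFun q1 0
    · exact congrFun q1 1
    · exact congrFun q1 2
    · exact q2.1
  have cx' : ∀ ω ω', fl R (x ω) = fl R (x ω') → fl R (x3 ω) = fl R (x3 ω') ∧
      ⌊(2 : ℝ) ^ R * x ω 3⌋ = ⌊(2 : ℝ) ^ R * x ω' 3⌋ := by
    intro ω ω' q1
    refine ⟨?_, congrFun q1 3⟩
    rw [hx3]
    refine funext fun j => ?_
    fin_cases j
    · exact congrFun q1 0
    · exact congrFun q1 1
    · exact congrFun q1 2
  have full : ∀ {γ : Type} (K : Ω → γ) (e : ℝ), 2 * (L * Real.log 2) - e ≤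
      CH p (fun ω => fl L ![x ω 0, x ω 1]) (fun ω => (K ω, W ω)) →
      CH p (fun ω => fl R (x ω)) (fun ω => (K ω, W ω)) ≤
        2 * (R * Real.log 2) + (18 + 4 * h + 2 * Real.log B₀) →
      2 * (((L : ℝ) - R) * Real.log 2) - (e + (18 + 4 * h + 2 * Real.log B₀)) ≤
        CH p (fun ω => fl L ![x3 ω 0, x3 ω 1]) (fun ω => (fl R (x3 ω), (K ω, W' ω))) := by
    intro γ K e g1 g2
    have g3 := CH_le_add hp0 (fun ω => fl L ![x ω 0, x ω 1]) (fun ω => fl R (x ω))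
      (fun ω => (K ω, W ω))
    have g4 : CH p (fun ω => fl L ![x ω 0, x ω 1]) (fun ω => (fl R (x ω), (K ω, W ω))) ≤
        CH p (fun ω => fl L ![x3 ω 0, x3 ω 1]) (fun ω => (fl R (x3 ω), (K ω, W' ω))) := by
      simp_rw [x30, x31]
      refine CH_mono_cond hp0 fun ω ω' _ _ hh => ?_
      simp only [Prod.mk.injEq] at hh ⊢
      have q := cx' ω ω' hh.1
      refine ⟨q.1, hh.2.1, ?_⟩
      rw [hW']
      exact Prod.ext q.2 hh.2.2
    linarith
  have lA := leaf A s1 n1 hs1 hn1 hv1 hN1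
  have lB' := leaf B s2 n2 hs2 hn2 hv2 hN2
  have key := key0 hp (x := x3) (K1 := A) (K2 := B) (W := W') (s1 := s1) (s2 := s2) h bz hK hB hRL
    hs1 hs2 hd
    (fun ω ω' hω hω' _ q1 q2 => by
      rw [x30, x30, x31, x31, x32, x32]
      rw [hW'] at q2
      exact hv1 ω ω' hω hω' q1 (Prod.ext_iff.1 q2).2)
    (fun ω ω' hω hω' _ q1 q2 => by
      rw [x30, x30, x31, x31, x32, x32]
      rw [hW'] at q2
      exact hv2 ω ω' hω hω' q1 (Prod.ext_iff.1 q2).2)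
    (full A e1 h1 lA) (full B e2 h2 lB')
  -- the world of the first digits
  have k1 : CH p (fun ω => fl L (x3 ω)) (fun ω => (fl R (x3 ω), W' ω)) =
      CH p (fun ω => fl L (x3 ω)) (fun ω => (fl R (x ω), W ω)) := by
    refine CH_congr hp0 (fun _ _ _ _ hh => (Prod.ext_iff.1 hh).1)
      (fun _ _ _ _ hh => (Prod.ext_iff.1 hh).1) ?_ ?_
    · intro ω ω' _ _ hh
      obtain ⟨q1, q2⟩ := Prod.ext_iff.1 hh
      refine Prod.ext (cx ω ω' q1 q2) ?_
      simp only at q2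
      rw [hW'] at q2
      exact (Prod.ext_iff.1 q2).2
    · intro ω ω' _ _ hh
      obtain ⟨q1, q2⟩ := Prod.ext_iff.1 hh
      have q := cx' ω ω' q1
      refine Prod.ext q.1 ?_
      simp only
      rw [hW']
      exact Prod.ext q.2 q2
  rw [k1] at key
  -- the digits after `L`
  have d1 := CH_swap hp0 (fun ω => fl L (x3 ω)) V (fun ω => (fl R (x ω), W ω))
  have d2 : CH p (fun ω => fl L (x3 ω)) (fun ω => (V ω, (fl R (x ω), W ω))) = 0 := by
    refine CH_eq_zero hp0 fun ω ω' hω hω' hh => ?_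
    simp only [Prod.mk.injEq] at hh
    rw [hx3]
    exact hV ω ω' hω hω' (Prod.ext hh.1 hh.2.2)
  have d3 : CH p V (fun ω => ((fl L (x3 ω), fl R (x ω)), (A ω, W ω))) ≤
      CH p V (fun ω => (fl L (x3 ω), (fl R (x ω), W ω))) := by
    refine CH_mono_cond hp0 fun ω ω' _ _ hh => ?_
    simp only [Prod.mk.injEq] at hh ⊢
    tauto
  have d4 := CH_le_add hp0 V (fun ω => (fl L (x3 ω), fl R (x ω))) (fun ω => (A ω, W ω))
  have d5 : CH p (fun ω => (fl L (x3 ω), fl R (x ω))) (fun ω => (A ω, W ω)) ≤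
      2 * (L * Real.log 2) + (18 + 4 * h + 2 * Real.log B₀) := by
    have g1 := CH_le_add hp0 (fun ω => (fl L (x3 ω), fl R (x ω))) (fun ω => fl L ![x ω 0, x ω 1])
      (fun ω => (A ω, W ω))
    have g2 := ch_base hp (X := fun ω => ![x ω 0, x ω 1]) (fun ω => (A ω, W ω)) (R := L) h (by
      intro ω hω j
      fin_cases j
      · exact hx ω hω 0
      · exact hx ω hω 1)
    have hy : ∀ ω ω', (fl L ![x ω 0, x ω 1], (A ω, W ω)) = (fl L ![x ω' 0, x ω' 1], (A ω', W ω')) →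
        |x ω 0 - x ω' 0| ≤ 1 / 2 ^ L ∧ |x ω 1 - x ω' 1| ≤ 1 / 2 ^ L := by
      intro ω ω' hh
      have e := (Prod.ext_iff.1 hh).1
      have a0 := fl_same e 0
      have a1 := fl_same e 1
      simp only [Matrix.cons_val_zero, Matrix.cons_val_one] at a0 a1
      constructor <;> rw [le_div_iff₀ (by positivity), mul_comm]
      · exact a0
      · exact a1
    have hLR3 : (1 : ℝ) / 2 ^ L ≤ 1 / 2 ^ R :=
      one_div_le_one_div_of_le (by positivity) (pow_le_pow_right₀ (by norm_num) hRL)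
    have g3 := ch_in hp (y := fun ω => x ω 0) (z := fun ω => x ω 1) (u := fun ω => x ω 2)
      (fun ω => (fl L ![x ω 0, x ω 1], (A ω, W ω))) (s := s1) (L := L) h hB hs1
      (fun ω ω' _ _ hh => (hy ω ω' hh).1) (fun ω ω' _ _ hh => (hy ω ω' hh).2)
      (fun ω ω' hω hω' hh => by
        simp only [Prod.mk.injEq] at hh
        exact hv1 ω ω' hω hω' hh.2.1 hh.2.2)
    have g4 := ch_in hp (y := fun ω => x ω 0) (z := fun ω => x ω 1) (u := fun ω => x ω 3)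
      (fun ω => (fl L ![x ω 0, x ω 1], (A ω, W ω))) (s := n1) (L := R) h hB hn1
      (fun ω ω' _ _ hh => (hy ω ω' hh).1.trans hLR3)
      (fun ω ω' _ _ hh => (hy ω ω' hh).2.trans hLR3)
      (fun ω ω' hω hω' hh => by
        simp only [Prod.mk.injEq] at hh
        exact hN1 ω ω' hω hω' hh.2.1 hh.2.2)
    have g5 : CH p (fun ω => (fl L (x3 ω), fl R (x ω)))
        (fun ω => (fl L ![x ω 0, x ω 1], (A ω, W ω))) ≤
        CH p (fun ω => (⌊(2 : ℝ) ^ L * x ω 2⌋, ⌊(2 : ℝ) ^ R * x ω 3⌋))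
          (fun ω => (fl L ![x ω 0, x ω 1], (A ω, W ω))) := by
      refine CH_mono_left hp0 fun ω ω' _ _ hh => ?_
      simp only [Prod.mk.injEq] at hh
      obtain ⟨⟨q2, q3⟩, q1, -⟩ := hh
      have q4 : fl L (x3 ω) = fl L (x3 ω') := by
        rw [hx3]
        refine funext fun j => ?_
        fin_cases j
        · exact congrFun q1 0
        · exact congrFun q1 1
        · exact q2
      refine Prod.ext q4 ?_
      have q5 := fl_det hRL q4
      rw [hx3] at q5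
      refine funext fun j => ?_
      fin_cases j
      · exact congrFun q5 0
      · exact congrFun q5 1
      · exact congrFun q5 2
      · exact q3
    have g6 := CH_subadd hp0 (fun ω => ⌊(2 : ℝ) ^ L * x ω 2⌋) (fun ω => ⌊(2 : ℝ) ^ R * x ω 3⌋)
      (fun ω => (fl L ![x ω 0, x ω 1], (A ω, W ω)))
    linarith
  -- the exchange
  have f1 := CH_swap hp0 (fun ω => fl R (x ω)) V W
  have f2 : CH p (fun ω => fl R (x ω)) (fun ω => (V ω, W ω)) ≤
      CH p (fun ω => ⌊(2 : ℝ) ^ R * x ω 3⌋) (fun ω => (V ω, W ω)) := by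
    refine CH_mono_left hp0 fun ω ω' hω hω' hh => ?_
    obtain ⟨q1, q2⟩ := Prod.ext_iff.1 hh
    have q3 := hV ω ω' hω hω' q2
    have q4 := fl_det hRL q3
    refine funext fun j => ?_
    fin_cases j
    · exact congrFun q4 0
    · exact congrFun q4 1
    · exact congrFun q4 2
    · exact q1
  have q0 := Real.sqrt_nonneg ((L : ℝ) - R)
  rw [d2, add_zero] at d1
  nlinarith [key, d1, d3, d4, d5, f1, f2, h3, hc, q0, lK, lB, hh0]

end Pool.SPN
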